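import Mathlib

/-!
# H96R (MP_ef0847_an): two crossing paths in a strip, and the chord theorem in the plane
-/

set_option autoImplicit false

namespace Pool.Agent.Lib.H96R

open Complex

/-- A continuous function whose sine is nonnegative stays in `[0, π]`. -/
theorem stay {f : ℝ → ℝ} (hf : Continuous f) (hs : ∀ t, 0 ≤ Real.sin (f t))
    (h0 : f 0 ∈ Set.Icc 0 Real.pi) (t : ℝ) : f t ∈ Set.Icc 0 Real.pi := by
  have hpi := Real.pi_pos
  have hpc : (Set.range f).OrdConnected := by
    have := isPreconnected_range hf
    exact this.ordConnected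
  constructor
  · by_contra hlt
    push Not at hlt
    have hy : max (f t) (-(Real.pi / 2)) ∈ Set.range f := by
      apply hpc.out ⟨t, rfl⟩ ⟨0, rfl⟩
      refine ⟨le_max_left _ _, max_le (hlt.le.trans h0.1) ?_⟩
      linarith [h0.1]
    obtain ⟨u, hu⟩ := hy
    have h1 := hs u
    rw [hu] at h1
    have h2 : Real.sin (max (f t) (-(Real.pi / 2))) < 0 := by
      apply Real.sin_neg_of_neg_of_neg_pi_lt
      · exact max_lt hlt (by linarith)
      · exact lt_of_lt_of_le (by linarith) (le_max_right _ _)
    linarith
  · by_contra hlt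
    push Not at hlt
    have hy : min (f t) (Real.pi + Real.pi / 2) ∈ Set.range f := by
      apply hpc.out ⟨0, rfl⟩ ⟨t, rfl⟩
      refine ⟨le_min (h0.2.trans hlt.le) ?_, min_le_left _ _⟩
      linarith [h0.2]
    obtain ⟨u, hu⟩ := hy
    have h1 := hs u
    rw [hu] at h1
    have h2 : Real.sin (min (f t) (Real.pi + Real.pi / 2) - Real.pi) > 0 := by
      apply Real.sin_pos_of_pos_of_lt_pi
      · have := lt_min hlt (by linarith : Real.pi < Real.pi + Real.pi / 2)
        linarith
      · have := min_le_right (f t) (Real.pi + Real.pi / 2)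
        linarith
    rw [Real.sin_sub_pi] at h2
    linarith

/-- Two paths in the strip `a ≤ Im z ≤ b` joining the top to the bottom and interchanging their
order cross. -/
theorem crossing (X Y : ℝ → ℂ) (hX : Continuous X) (hY : Continuous Y) (a b : ℝ)
    (hXa : ∀ s, a ≤ (X s).im) (hXb : ∀ s, (X s).im ≤ b) (hYa : ∀ s, a ≤ (Y s).im)
    (hYb : ∀ s, (Y s).im ≤ b) (hX0 : (X 0).im = b) (hY0 : (Y 0).im = b) (hX1 : (X 1).im = a)
    (hY1 : (Y 1).im = a) (hl : (X 0).re < (Y 0).re) (hr : (Y 1).re < (X 1).re) :
    ∃ s t, X s = Y t := by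
  by_contra hcon
  push Not at hcon
  let F : C(ℝ × ℝ, {z : ℂ // z ≠ 0}) :=
    ⟨fun p => ⟨X p.1 - Y p.2, sub_ne_zero.2 (hcon p.1 p.2)⟩,
      Continuous.subtype_mk ((hX.comp continuous_fst).sub (hY.comp continuous_snd)) _⟩
  have hF0 : X 0 - Y 0 = -(((Y 0).re - (X 0).re : ℝ) : ℂ) := by
    apply Complex.ext
    · simp
    · simp [hX0, hY0]
  have hpos : 0 < (Y 0).re - (X 0).re := by linarith
  have he : (fun z : ℂ ↦ (⟨_, z.exp_ne_zero⟩ : {z : ℂ // z ≠ 0}))
      ((Real.log ((Y 0).re - (X 0).re) : ℂ) + Real.pi * I) = F (0, 0) := by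
    apply Subtype.ext
    show Complex.exp ((Real.log ((Y 0).re - (X 0).re) : ℂ) + Real.pi * I) = X 0 - Y 0
    rw [Complex.exp_add, Complex.exp_pi_mul_I, ← Complex.ofReal_exp, Real.exp_log hpos, hF0]
    ring
  obtain ⟨L, ⟨hL0, hL⟩, -⟩ := Complex.isCoveringMap_exp.existsUnique_continuousMap_lifts F (0, 0) _ he
  have hexp : ∀ s t, Complex.exp (L (s, t)) = X s - Y t := by
    intro s t
    have := congrFun hL (s, t)
    exact congrArg Subtype.val this
  have him : ∀ s t, (X s - Y t).im = Real.exp (L (s, t)).re * Real.sin (L (s, t)).im := by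
    intro s t
    rw [← hexp, Complex.exp_im]
  have hre : ∀ s t, (X s - Y t).re = Real.exp (L (s, t)).re * Real.cos (L (s, t)).im := by
    intro s t
    rw [← hexp, Complex.exp_re]
  have hθ0 : (L (0, 0)).im = Real.pi := by
    rw [hL0]
    simp
  have hcont : Continuous fun p : ℝ × ℝ => (L p).im := Complex.continuous_im.comp L.continuous
  have hpi := Real.pi_pos
  -- the upper way
  have up1 : ∀ t, (L (0, t)).im ∈ Set.Icc 0 Real.pi := by
    apply stay (f := fun t => (L (0, t)).im)
    · exact hcont.comp (by fun_prop : Continuous fun t : ℝ => ((0 : ℝ), t))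
    · intro t
      have h1 := him 0 t
      have h2 : 0 ≤ (X 0 - Y t).im := by
        rw [Complex.sub_im, hX0]
        linarith [hYb t]
      rw [h1] at h2
      exact nonneg_of_mul_nonneg_right h2 (Real.exp_pos _)
    · show (L (0, 0)).im ∈ Set.Icc 0 Real.pi
      rw [hθ0]
      exact ⟨hpi.le, le_refl _⟩
  have up2 : (L (1, 1)).im ∈ Set.Icc 0 Real.pi := by
    apply stay (f := fun s => (L (s, 1)).im)
    · exact hcont.comp (by fun_prop : Continuous fun s : ℝ => (s, (1 : ℝ)))
    · intro s
      have h1 := him s 1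
      have h2 : 0 ≤ (X s - Y 1).im := by
        rw [Complex.sub_im, hY1]
        linarith [hXa s]
      rw [h1] at h2
      exact nonneg_of_mul_nonneg_right h2 (Real.exp_pos _)
    · exact up1 1
  -- the lower way
  have lo1 : ∀ s, (L (s, 0)).im - Real.pi ∈ Set.Icc 0 Real.pi := by
    apply stay (f := fun s => (L (s, 0)).im - Real.pi)
    · exact (hcont.comp (by fun_prop : Continuous fun s : ℝ => (s, (0 : ℝ)))).sub continuous_const
    · intro s
      have h1 := him s 0
      have h2 : (X s - Y 0).im ≤ 0 := by
        rw [Complex.sub_im, hY0]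
        linarith [hXb s]
      rw [h1] at h2
      rw [Real.sin_sub_pi]
      have h3 : Real.sin (L (s, 0)).im ≤ 0 := by
        by_contra h4
        push Not at h4
        have := mul_pos (Real.exp_pos (L (s, 0)).re) h4
        linarith
      linarith
    · show (L (0, 0)).im - Real.pi ∈ Set.Icc 0 Real.pi
      rw [hθ0, sub_self]
      exact ⟨le_refl _, hpi.le⟩
  have lo2 : (L (1, 1)).im - Real.pi ∈ Set.Icc 0 Real.pi := by
    apply stay (f := fun t => (L (1, t)).im - Real.pi)
    · exact (hcont.comp (by fun_prop : Continuous fun t : ℝ => ((1 : ℝ), t))).sub continuous_const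
    · intro t
      have h1 := him 1 t
      have h2 : (X 1 - Y t).im ≤ 0 := by
        rw [Complex.sub_im, hX1]
        linarith [hYa t]
      rw [h1] at h2
      rw [Real.sin_sub_pi]
      have h3 : Real.sin (L (1, t)).im ≤ 0 := by
        by_contra h4
        push Not at h4
        have := mul_pos (Real.exp_pos (L (1, t)).re) h4
        linarith
      linarith
    · exact lo1 1
  have hθ1 : (L (1, 1)).im = Real.pi := le_antisymm up2.2 (by linarith [lo2.1])
  have h1 := hre 1 1
  rw [hθ1, Real.cos_pi, Complex.sub_re] at h1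
  have h2 := Real.exp_pos (L (1, 1)).re
  linarith

/-- **Chord theorem.** If a path-connected set of the plane does not meet its translate by `1`, it
does not meet its translates by `2, 3, …`. -/
theorem chord {U : Set ℂ} (hU : IsPathConnected U) (h1 : ∀ z ∈ U, z + 1 ∉ U) :
    ∀ n : ℕ, 1 ≤ n → ∀ z ∈ U, z + n ∉ U := by
  intro n
  induction n using Nat.strong_induction_on with
  | _ n ih =>
    intro hn z hz hzn
    rcases hn.eq_or_lt with h | h
    · rw [← h] at hzn
      push_cast at hzn
      exact h1 z hz hzn
    obtain ⟨γ, hγ⟩ := hU.joinedIn z hz (z + n) hzn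
    have hgU : ∀ t, γ.extend t ∈ U := fun t => hγ _
    have hgc : Continuous γ.extend := γ.continuous_extend
    have hproj : ∀ t, ∃ u ∈ Set.Icc (0 : ℝ) 1, γ.extend t = γ.extend u := by
      intro t
      refine ⟨Set.projIcc 0 1 zero_le_one t, (Set.projIcc 0 1 zero_le_one t).2, ?_⟩
      rw [Path.extend_apply _ (Set.projIcc 0 1 zero_le_one t).2]
      rfl
    have hne : (Set.Icc (0 : ℝ) 1).Nonempty := ⟨0, by norm_num, by norm_num⟩
    obtain ⟨tM, -, hM⟩ := isCompact_Icc.exists_isMaxOn hne
      (Complex.continuous_im.comp hgc).continuousOn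
    obtain ⟨tm, -, hm⟩ := isCompact_Icc.exists_isMinOn hne
      (Complex.continuous_im.comp hgc).continuousOn
    have hM' : ∀ t, (γ.extend t).im ≤ (γ.extend tM).im := by
      intro t
      obtain ⟨u, hu, he⟩ := hproj t
      rw [he]
      exact hM hu
    have hm' : ∀ t, (γ.extend tm).im ≤ (γ.extend t).im := by
      intro t
      obtain ⟨u, hu, he⟩ := hproj t
      rw [he]
      exact hm hu
    let X : ℝ → ℂ := fun s => if s ≤ 1 / 2 then γ.extend (tM + 2 * s * (1 - tM))
      else γ.extend ((2 * s - 1) * tm) + n
    let Y : ℝ → ℂ := fun t => γ.extend (tM + t * (tm - tM)) + 1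
    have hX : Continuous X := by
      apply Continuous.if_le
      · exact hgc.comp (by fun_prop)
      · exact (hgc.comp (by fun_prop)).add continuous_const
      · exact continuous_id
      · exact continuous_const
      · intro s hs
        rw [hs]
        have e1 : tM + 2 * (1 / 2 : ℝ) * (1 - tM) = 1 := by ring
        have e2 : (2 * (1 / 2 : ℝ) - 1) * tm = 0 := by ring
        rw [e1, e2, Path.extend_one, Path.extend_zero]
    have hY : Continuous Y := (hgc.comp (by fun_prop)).add continuous_const
    have hcross := crossing X Y hX hY (γ.extend tm).im (γ.extend tM).im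
      (by
        intro s
        show _ ≤ (if s ≤ 1 / 2 then γ.extend (tM + 2 * s * (1 - tM))
          else γ.extend ((2 * s - 1) * tm) + n).im
        split_ifs
        · exact hm' _
        · simpa using hm' _)
      (by
        intro s
        show (if s ≤ 1 / 2 then γ.extend (tM + 2 * s * (1 - tM))
          else γ.extend ((2 * s - 1) * tm) + n).im ≤ _
        split_ifs
        · exact hM' _
        · simpa using hM' _)
      (by
        intro s
        show _ ≤ (γ.extend (tM + s * (tm - tM)) + 1).im
        simpa using hm' _)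
      (by
        intro s
        show (γ.extend (tM + s * (tm - tM)) + 1).im ≤ _
        simpa using hM' _)
      (by
        show (if (0 : ℝ) ≤ 1 / 2 then γ.extend (tM + 2 * 0 * (1 - tM))
          else γ.extend ((2 * 0 - 1) * tm) + n).im = _
        rw [if_pos (by norm_num)]
        simp)
      (by
        show (γ.extend (tM + 0 * (tm - tM)) + 1).im = _
        simp)
      (by
        show (if (1 : ℝ) ≤ 1 / 2 then γ.extend (tM + 2 * 1 * (1 - tM))
          else γ.extend ((2 * 1 - 1) * tm) + n).im = _
        rw [if_neg (by norm_num)]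
        have e : (2 * 1 - 1 : ℝ) * tm = tm := by ring
        rw [e]
        simp)
      (by
        show (γ.extend (tM + 1 * (tm - tM)) + 1).im = _
        have e : tM + 1 * (tm - tM) = tm := by ring
        rw [e]
        simp)
      (by
        show (if (0 : ℝ) ≤ 1 / 2 then γ.extend (tM + 2 * 0 * (1 - tM))
          else γ.extend ((2 * 0 - 1) * tm) + n).re < (γ.extend (tM + 0 * (tm - tM)) + 1).re
        rw [if_pos (by norm_num)]
        have e1 : tM + 2 * 0 * (1 - tM) = tM := by ring
        have e2 : tM + 0 * (tm - tM) = tM := by ring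
        rw [e1, e2]
        simp)
      (by
        show (γ.extend (tM + 1 * (tm - tM)) + 1).re <
          (if (1 : ℝ) ≤ 1 / 2 then γ.extend (tM + 2 * 1 * (1 - tM))
          else γ.extend ((2 * 1 - 1) * tm) + n).re
        rw [if_neg (by norm_num)]
        have e1 : tM + 1 * (tm - tM) = tm := by ring
        have e2 : (2 * 1 - 1 : ℝ) * tm = tm := by ring
        rw [e1, e2]
        have : (1 : ℝ) < n := by exact_mod_cast h
        simpa using this)
    obtain ⟨s, t, hst⟩ := hcross
    have hst' : (if s ≤ 1 / 2 then γ.extend (tM + 2 * s * (1 - tM))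
      else γ.extend ((2 * s - 1) * tm) + n) = γ.extend (tM + t * (tm - tM)) + 1 := hst
    split_ifs at hst' with hs
    · apply h1 _ (hgU (tM + t * (tm - tM)))
      rw [← hst']
      exact hgU _
    · have h3 := ih (n - 1) (by omega) (by omega) _ (hgU ((2 * s - 1) * tm))
      apply h3
      have e : γ.extend ((2 * s - 1) * tm) + ((n - 1 : ℕ) : ℂ) = γ.extend (tM + t * (tm - tM)) := by
        rw [Nat.cast_sub hn, Nat.cast_one]
        linear_combination hst'
      rw [e]
      exact hgU _

end Pool.Agent.Lib.H96R
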