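import Pool.Agent.Lib.H96R.Free
import Pool.Agent.Lib.H14U.Main

/-!
# H96R (MP_ef0847_an): the displacement of `f^q` when `q α` is close to an integer vector
-/

set_option autoImplicit false

open scoped ContDiff
open MeasureTheory

namespace Pool.Agent.Lib.H96R

open Pool.Agent.Lib.H14U Pool.Agent.Lib.H47C

/-- `μ` is a measure on the plane which is finite on bounded sets and invariant under `F` and under
the integer translations, and the measure of small balls is bounded below by a power of the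
radius. -/
structure Inv (F : (Fin 2 → ℝ) → (Fin 2 → ℝ)) (μ : Measure (Fin 2 → ℝ)) : Prop where
  pres : MeasurePreserving F μ μ
  trans : ∀ k : Fin 2 → ℤ, MeasurePreserving (fun x => x + zv k) μ μ
  fin : ∀ R : ℝ, μ (Metric.ball 0 R) < ⊤
  low : ∃ c : ℝ, 0 < c ∧ ∃ K : ℕ, ∀ (x : Fin 2 → ℝ) (r : ℝ), 0 < r → r ≤ 1 →
    ENNReal.ofReal (c * r ^ K) ≤ μ (Metric.ball x r)

theorem Inv.ball_le {F : (Fin 2 → ℝ) → (Fin 2 → ℝ)} {μ : Measure (Fin 2 → ℝ)} (h : Inv F μ)
    (x : Fin 2 → ℝ) (R : ℝ) : μ (Metric.ball x R) ≤ μ (Metric.ball 0 (R + 1)) := by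
  have hx : x = (fun i => Int.fract (x i)) + zv (fun i => ⌊x i⌋) := by
    funext i
    simp [zv]
  have hy : ‖(fun i => Int.fract (x i) : Fin 2 → ℝ)‖ ≤ 1 := by
    rw [pi_norm_le_iff_of_nonneg zero_le_one]
    intro i
    rw [Real.norm_of_nonneg (Int.fract_nonneg _)]
    exact (Int.fract_lt_one _).le
  have h1 := (h.trans (fun i => ⌊x i⌋)).measure_preimage
    (Metric.isOpen_ball (x := x) (ε := R)).measurableSet.nullMeasurableSet
  rw [← h1]
  apply measure_mono
  intro z hz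
  rw [Set.mem_preimage, Metric.mem_ball, dist_eq_norm] at hz
  rw [Metric.mem_ball, dist_zero_right]
  have e : z = (z + zv (fun i => ⌊x i⌋) - x) + (fun i => Int.fract (x i)) := by
    nth_rewrite 2 [hx]
    abel
  rw [e]
  calc _ ≤ ‖z + zv (fun i => ⌊x i⌋) - x‖ + ‖(fun i => Int.fract (x i) : Fin 2 → ℝ)‖ := norm_add_le _ _
    _ < R + 1 := by linarith

theorem iter_sub {F : (Fin 2 → ℝ) → (Fin 2 → ℝ)}
    (hcm : ∀ (x : Fin 2 → ℝ) (k : Fin 2 → ℤ), F (x + zv k) = F x + zv k) (q : ℕ) (k : Fin 2 → ℤ)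
    (n : ℕ) (x : Fin 2 → ℝ) :
    (fun y => F^[q] y - zv k)^[n] x = F^[q * n] x - (n : ℝ) • zv k := by
  induction n with
  | zero => simp
  | succ n ih =>
    rw [Function.iterate_succ_apply', ih]
    have e1 : (F^[q * n] x - (n : ℝ) • zv k) = F^[q * n] x + zv (-((n : ℤ) • k)) := by
      funext i
      simp [zv]
      ring
    have e2 : F^[q] (F^[q * n] x - (n : ℝ) • zv k) = F^[q * (n + 1)] x - (n : ℝ) • zv k := by
      rw [e1, iter_comm hcm, ← Function.iterate_add_apply]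
      have : q + q * n = q * (n + 1) := by ring
      rw [this]
      funext i
      simp [zv]
      ring
    show F^[q] (F^[q * n] x - (n : ℝ) • zv k) - zv k = _
    rw [e2, Nat.cast_succ, add_smul, one_smul]
    abel

/-- **The displacement bound.** -/
theorem disp {F G : (Fin 2 → ℝ) → (Fin 2 → ℝ)} (hS : Sys F G) {α : Fin 2 → ℝ}
    (hα : ∀ k : Fin 2 → ℤ, k ≠ 0 → ∀ m : ℤ, ∑ i, (k i : ℝ) * α i ≠ (m : ℝ))
    {hh : (Fin 2 → ℝ) ≃ₜ (Fin 2 → ℝ)} {A B : Matrix (Fin 2) (Fin 2) ℤ} {m : Fin 2 → ℤ}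
    (hc : Conj F α hh A B m) {μ : Measure (Fin 2 → ℝ)} (hμ : Inv F μ) :
    ∃ D : ℝ, 0 < D ∧ ∃ K : ℕ, ∀ (q : ℕ) (Γ : ℝ), 1 ≤ q → DerBound F q Γ → ∀ (p : Fin 2 → ℤ)
      (δ : ℝ), (∀ i, |(q : ℝ) * α i - p i| ≤ δ) → D * δ < 1 →
      ∃ k : Fin 2 → ℤ, ∀ x, ‖F^[q] x - x - zv k‖ ^ (K + 1) ≤ (4 * Γ) ^ (K + 1) * (D * δ) := by
  obtain ⟨M, hM0, hM⟩ := rot_bounded hc
  obtain ⟨c, hc0, K, hlow⟩ := hμ.low
  set R0 : ℝ := M + ‖r1_L B‖ + 1 with hR0
  set C : ℝ := (μ (Metric.ball 0 (R0 + 1))).toReal with hC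
  have hC0 : 0 ≤ C := ENNReal.toReal_nonneg
  refine ⟨(C + 1) / c, by positivity, K, ?_⟩
  intro q Γ hq hΓ p δ hδ hD
  set k : Fin 2 → ℤ := B.mulVec (p + (q : ℤ) • m) with hk
  refine ⟨k, ?_⟩
  set β : Fin 2 → ℝ := (q : ℝ) • α - zv p with hβ
  have hβ0 : β ≠ 0 := by
    intro h0
    have h1 := congrFun h0 0
    rw [hβ] at h1
    simp only [Pi.sub_apply, Pi.smul_apply, smul_eq_mul, Pi.zero_apply] at h1
    apply hα (Pi.single 0 (q : ℤ)) _ (p 0)
    · rw [Fin.sum_univ_two]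
      simp only [Pi.single_eq_same, Int.cast_natCast]
      have h2 : ((Pi.single (0 : Fin 2) (q : ℤ) : Fin 2 → ℤ) 1) = 0 := by
        simp
      rw [h2]
      have h3 : (zv p) 0 = (p 0 : ℝ) := rfl
      rw [h3] at h1
      push_cast
      linarith
    · intro h2
      have := congrFun h2 0
      rw [Pi.single_eq_same, Pi.zero_apply] at this
      omega
  have hβn : 0 < ‖β‖ := norm_pos_iff.2 hβ0
  have hβδ : ‖β‖ ≤ δ := by
    have h0 : 0 ≤ δ := (abs_nonneg _).trans (hδ 0)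
    rw [pi_norm_le_iff_of_nonneg h0]
    intro i
    rw [Real.norm_eq_abs]
    exact hδ i
  set g : (Fin 2 → ℝ) → (Fin 2 → ℝ) := fun y => F^[q] y - zv k with hg
  -- conjugacy of `g` to the translation by `β`
  have hit : ∀ (n : ℕ) x, hh (F^[n] x) = hh x + (n : ℝ) • (α + zv m) := by
    intro n
    induction n with
    | zero => intro x; simp
    | succ n ih =>
      intro x
      rw [Function.iterate_succ_apply', hc.conj, ih, Nat.cast_succ, add_smul, one_smul]
      abel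
  have hAk : A.mulVec k = p + (q : ℤ) • m := by
    rw [hk, Matrix.mulVec_mulVec, hc.AB, Matrix.one_mulVec]
  have hgc : ∀ x, hh (g x) = hh x + β := by
    intro x
    have e1 : g x = F^[q] x + zv (-k) := by
      funext i
      simp [hg, zv]
      ring
    rw [e1, hc.equiv, hit, Matrix.mulVec_neg, hAk, hβ]
    funext i
    simp [zv]
    ring
  -- displacement of the iterates of `g`
  have hgn : ∀ (n : ℕ) x, (n : ℝ) * ‖β‖ ≤ 1 → ‖g^[n] x - x‖ ≤ M + ‖r1_L B‖ := by
    intro n x hn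
    rw [hg, iter_sub hS.comm]
    have h1 := hM (q * n) x
    have e2 : (q : ℝ) • act B (α + zv m) - zv k = r1_L B β := by
      have e3 : zv k = act B (zv (p + (q : ℤ) • m)) := ((act_basic B B).2.2.2.2.1 _).symm
      rw [e3, hβ, map_sub, map_smul, ← r1_L_apply, ← r1_L_apply, (act_basic B B).1]
      have e4 : zv (p + (q : ℤ) • m) = zv p + (q : ℝ) • zv m := by
        funext i
        simp [zv]
      rw [e4, (act_basic B B).1, (act_basic B B).2.1, smul_add]
      abel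
    have e5 : F^[q * n] x - (n : ℝ) • zv k - x =
        (F^[q * n] x - x - ((q * n : ℕ) : ℝ) • act B (α + zv m)) + (n : ℝ) • (r1_L B β) := by
      rw [← e2, smul_sub, smul_smul]
      push_cast
      rw [mul_comm (n : ℝ) (q : ℝ)]
      abel
    rw [e5]
    refine (norm_add_le _ _).trans (add_le_add h1 ?_)
    rw [norm_smul, Real.norm_of_nonneg (Nat.cast_nonneg n)]
    have h2 := (r1_L B).le_opNorm β
    have h3 : (n : ℝ) * ‖r1_L B β‖ ≤ (n : ℝ) * (‖r1_L B‖ * ‖β‖) :=
      mul_le_mul_of_nonneg_left h2 (Nat.cast_nonneg n)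
    have h4 : (n : ℝ) * (‖r1_L B‖ * ‖β‖) ≤ ‖r1_L B‖ := by
      have := mul_le_mul_of_nonneg_left hn (norm_nonneg (r1_L B))
      nlinarith
    linarith
  have hgμ : MeasurePreserving g μ μ := by
    have h1 := (hμ.trans (-k)).comp (hμ.pres.iterate q)
    have e : (fun x => x + zv (-k)) ∘ F^[q] = g := by
      funext x i
      simp [hg, zv]
      ring
    rw [e] at h1
    exact h1
  have hlip : ∀ x y, ‖g x - g y‖ ≤ Γ * ‖x - y‖ := by
    intro x y
    have hdiff : Differentiable ℝ (F^[q]) := (iter_smooth hS.smoothF q).differentiable (by simp)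
    have h1 := Convex.norm_image_sub_le_of_norm_fderiv_le (𝕜 := ℝ) (s := Set.univ)
      (fun w _ => hdiff w) (fun w _ => hΓ.2 q le_rfl w) convex_univ (Set.mem_univ y)
      (Set.mem_univ x)
    have e : g x - g y = F^[q] x - F^[q] y := by
      simp only [hg]
      abel
    rw [e]
    exact h1
  intro x
  have e0 : F^[q] x - x - zv k = g x - x := by
    simp only [hg]
    abel
  rw [e0]
  set a : ℝ := ‖g x - x‖ with ha
  have hΓ1 := hΓ.1
  rcases (norm_nonneg (g x - x)).eq_or_lt with h0 | hapos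
  · rw [ha, ← h0, zero_pow (by omega)]
    have : 0 ≤ δ := hβn.le.trans hβδ
    positivity
  set ρ : ℝ := min 1 (a / (4 * Γ)) with hρ
  have hρ0 : 0 < ρ := by
    rw [hρ]
    apply lt_min one_pos
    positivity
  have hρ1 : ρ ≤ 1 := min_le_left _ _
  have hρa : ρ ≤ a / (4 * Γ) := min_le_right _ _
  have hΓρ : Γ * ρ ≤ a / 4 := by
    have h1 := mul_le_mul_of_nonneg_left hρa (by linarith : (0 : ℝ) ≤ Γ)
    have e : Γ * (a / (4 * Γ)) = a / 4 := by field_simp
    linarith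
  have hρa4 : ρ ≤ a / 4 := by nlinarith
  have hB : IsPathConnected (Metric.ball x ρ) :=
    (convex_ball x ρ).isPathConnected ⟨x, Metric.mem_ball_self hρ0⟩
  have hfree : ∀ y ∈ Metric.ball x ρ, g y ∉ Metric.ball x ρ := by
    intro y hy hgy
    rw [Metric.mem_ball, dist_eq_norm] at hy hgy
    have h1 := hlip x y
    have h2 : ‖x - y‖ < ρ := by rw [norm_sub_rev]; exact hy
    have h3 : a ≤ ‖g x - g y‖ + ‖g y - x‖ := by
      rw [ha]
      have e : g x - x = (g x - g y) + (g y - x) := by abel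
      rw [e]
      exact norm_add_le _ _
    have h4 : Γ * ‖x - y‖ ≤ Γ * ρ := mul_le_mul_of_nonneg_left h2.le (by linarith)
    have hapos' : 0 < a := hapos
    linarith
  set N : ℕ := ⌊1 / ‖β‖⌋₊ + 1 with hN
  have hmeas := free_measure hβ0 hgc hB hfree Metric.isOpen_ball.measurableSet hgμ N
    (Metric.ball x R0) (by
      intro n hn y hy
      have hn' : (n : ℝ) * ‖β‖ ≤ 1 := by
        have h1 : n ≤ ⌊1 / ‖β‖⌋₊ := by omega
        have h2 : (n : ℝ) ≤ 1 / ‖β‖ := (Nat.le_floor_iff (by positivity)).1 h1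
        rwa [le_div_iff₀ hβn] at h2
      have h3 := hgn n y hn'
      rw [Metric.mem_ball, dist_eq_norm] at hy ⊢
      have e : y - x = -(g^[n] y - y) + (g^[n] y - x) := by abel
      rw [e]
      refine (norm_add_le _ _).trans_lt ?_
      rw [norm_neg, hR0]
      linarith)
  have hfin := hμ.fin (R0 + 1)
  have h5 : (N : ENNReal) * ENNReal.ofReal (c * ρ ^ K) ≤ μ (Metric.ball 0 (R0 + 1)) := by
    refine (mul_le_mul_right (hlow x ρ hρ0 hρ1) _).trans (hmeas.trans (hμ.ball_le x R0))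
  have h6 : (N : ℝ) * (c * ρ ^ K) ≤ C := by
    have h7 := ENNReal.toReal_mono hfin.ne h5
    rw [ENNReal.toReal_mul, ENNReal.toReal_natCast, ENNReal.toReal_ofReal (by positivity)] at h7
    exact h7
  have h8 : 1 / ‖β‖ ≤ N := by
    rw [hN]
    push_cast
    exact (Nat.lt_floor_add_one _).le
  have h9 : c * ρ ^ K ≤ C * ‖β‖ := by
    have h10 : 1 / ‖β‖ * (c * ρ ^ K) ≤ C :=
      (mul_le_mul_of_nonneg_right h8 (by positivity)).trans h6
    have e : c * ρ ^ K = 1 / ‖β‖ * (c * ρ ^ K) * ‖β‖ := by field_simp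
    rw [e]
    exact mul_le_mul_of_nonneg_right h10 hβn.le
  have h11 : ρ ^ K ≤ (C + 1) / c * δ := by
    rw [div_mul_eq_mul_div, le_div_iff₀ hc0]
    have h12 : C * ‖β‖ ≤ C * δ := mul_le_mul_of_nonneg_left hβδ hC0
    nlinarith
  have hρlt : ρ < 1 := by
    rcases hρ1.eq_or_lt with h | h
    · rw [h, one_pow] at h11
      linarith
    · exact h
  have hρe : ρ = a / (4 * Γ) := by
    rw [hρ]
    apply min_eq_right
    by_contra h
    push Not at h
    have : ρ = 1 := by rw [hρ]; exact min_eq_left h.le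
    linarith
  have h13 : a = 4 * Γ * ρ := by
    rw [hρe]
    field_simp
  have h14 : ρ ^ (K + 1) ≤ (C + 1) / c * δ := by
    rw [pow_succ]
    have : ρ ^ K * ρ ≤ ρ ^ K * 1 := mul_le_mul_of_nonneg_left hρ1 (by positivity)
    linarith
  rw [h13, mul_pow]
  exact mul_le_mul_of_nonneg_left h14 (by positivity)

end Pool.Agent.Lib.H96R
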