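import Pool.Agent.Lib.H96R.Subexp

/-!
# H96R (MP_ef0847_an): equicontinuity of the iterates of a map conjugate to a translation
-/

set_option autoImplicit false

open scoped ContDiff

namespace Pool.Agent.Lib.H96R

open Pool.Agent.Lib.H14U

theorem equi_of_conj {d : ℕ} (α : Fin d → ℝ) (F : (Fin d → ℝ) → (Fin d → ℝ)) (hFc : Continuous F)
    (h : (Fin d → AddCircle (1 : ℝ)) ≃ₜ (Fin d → AddCircle (1 : ℝ)))
    (hconj : ∀ x : Fin d → ℝ, h (pr (F x)) = h (pr x) + pr α) : Equi F := by
  have hpr0 : ∀ (j : ℕ) (x : Fin d → ℝ), h (pr (F^[j] x)) = h (pr x) + (j : ℕ) • pr α := by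
    intro j
    induction j with
    | zero =>
      intro x
      rw [Function.iterate_zero, id_eq, zero_smul, add_zero]
    | succ j ih =>
      intro x
      rw [Function.iterate_succ_apply', hconj, ih, succ_nsmul, add_assoc]
  intro ε hε
  set ρ : ℝ := min ε (1 / 4) with hρ
  have hρ0 : 0 < ρ := lt_min hε (by norm_num)
  have hρ1 : ρ < 1 / 2 := (min_le_right _ _).trans_lt (by norm_num)
  have hu1 := CompactSpace.uniformContinuous_of_continuous h.symm.continuous
  have hu2 := CompactSpace.uniformContinuous_of_continuous h.continuous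
  obtain ⟨δ₁, hδ₁, h1⟩ := Metric.uniformContinuous_iff.1 hu1 ρ hρ0
  obtain ⟨δ₂, hδ₂, h2⟩ := Metric.uniformContinuous_iff.1 hu2 δ₁ hδ₁
  refine ⟨δ₂ / 2, by positivity, fun j x y hxy => ?_⟩
  have hFj : Continuous (F^[j]) := hFc.iterate j
  have h7 := const_integer (s := Metric.closedBall y ‖x - y‖)
    (convex_closedBall y ‖x - y‖).isPreconnected (u := fun z => F^[j] z - F^[j] y)
    (hFj.sub continuous_const).continuousOn hρ1 (fun z hz => ?_) y
    (Metric.mem_closedBall_self (norm_nonneg _)) 0 ?_ x (by rw [Metric.mem_closedBall, dist_eq_norm])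
  · have h8 : zv (0 : Fin d → ℤ) = 0 := by
      funext i
      simp [zv]
    rw [h8, sub_zero] at h7
    exact h7.trans (min_le_left _ _)
  · rw [Metric.mem_closedBall, dist_eq_norm] at hz
    have h3 : dist (pr z) (pr y) ≤ ‖z - y‖ := by
      refine dist_pr_le (norm_nonneg _) 0 fun i => ?_
      have := norm_le_pi_norm (z - y) i
      rw [Real.norm_eq_abs, Pi.sub_apply] at this
      simpa using this
    have h4 : dist (pr z) (pr y) < δ₂ := by
      have : ‖z - y‖ ≤ δ₂ / 2 := hz.trans hxy
      linarith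
    have h5 := h2 h4
    have h6 : dist (pr (F^[j] z)) (pr (F^[j] y)) < ρ := by
      have e : ∀ w, pr (F^[j] w) = h.symm (h (pr w) + (j : ℕ) • pr α) := by
        intro w
        rw [← hpr0 j w, Homeomorph.symm_apply_apply]
      rw [e z, e y]
      apply h1
      rw [dist_add_right]
      exact h5
    exact exists_of_dist_pr h6.le
  · have h8 : zv (0 : Fin d → ℤ) = 0 := by
      funext i
      simp [zv]
    simp only [h8, sub_self, norm_zero]
    exact hρ0.le

end Pool.Agent.Lib.H96R
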