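import Pool.Agent.Lib.H96R.Cross
import Pool.Agent.Lib.H47C.C4
import Pool.Agent.Lib.H47C.R1

/-!
# H96R (MP_ef0847_an): free sets of planar maps conjugate to a translation
-/

set_option autoImplicit false

open scoped ContDiff
open MeasureTheory

namespace Pool.Agent.Lib.H96R

open Pool.Agent.Lib.H14U Pool.Agent.Lib.H47C

/-- The plane as `ℂ`. -/
noncomputable def cpx (x : Fin 2 → ℝ) : ℂ := (x 0 : ℂ) + (x 1 : ℂ) * Complex.I

theorem cpx_add (x y : Fin 2 → ℝ) : cpx (x + y) = cpx x + cpx y := by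
  unfold cpx
  simp only [Pi.add_apply, Complex.ofReal_add]
  ring

theorem cpx_smul (t : ℝ) (x : Fin 2 → ℝ) : cpx (t • x) = t * cpx x := by
  unfold cpx
  simp only [Pi.smul_apply, smul_eq_mul, Complex.ofReal_mul]
  ring

theorem cpx_inj {x y : Fin 2 → ℝ} (h : cpx x = cpx y) : x = y := by
  have h0 := congrArg Complex.re h
  have h1 := congrArg Complex.im h
  simp [cpx] at h0 h1
  funext i
  fin_cases i
  · exact h0
  · exact h1

theorem cpx_ne {x : Fin 2 → ℝ} (h : x ≠ 0) : cpx x ≠ 0 := by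
  intro h0
  apply h
  apply cpx_inj
  rw [h0]
  simp [cpx]

theorem cpx_cont : Continuous cpx := by
  unfold cpx
  fun_prop

/-- The chord theorem for translations of the plane by any vector. -/
theorem chord2 {β : Fin 2 → ℝ} (hβ : β ≠ 0) {U : Set (Fin 2 → ℝ)} (hU : IsPathConnected U)
    (h1 : ∀ x ∈ U, x + β ∉ U) (n : ℕ) (hn : 1 ≤ n) (x : Fin 2 → ℝ) (hx : x ∈ U) :
    x + (n : ℝ) • β ∉ U := by
  have hb := cpx_ne hβ
  have hV : IsPathConnected ((fun x => cpx x / cpx β) '' U) :=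
    hU.image (cpx_cont.div_const _)
  have h := chord hV (by
    rintro _ ⟨y, hy, rfl⟩ ⟨z, hz, hzy⟩
    apply h1 y hy
    have e : y + β = z := by
      apply cpx_inj
      rw [cpx_add]
      have hzy' : cpx z / cpx β = cpx y / cpx β + 1 := hzy
      rw [div_add_one hb, div_left_inj' hb] at hzy'
      exact hzy'.symm
    rw [e]
    exact hz) n hn _ ⟨x, hx, rfl⟩
  intro hx'
  apply h
  refine ⟨_, hx', ?_⟩
  show cpx (x + (n : ℝ) • β) / cpx β = cpx x / cpx β + n
  rw [cpx_add, cpx_smul]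
  field_simp
  push_cast
  ring

/-- A free path-connected set of a map of the plane conjugate to a translation never meets its
images. -/
theorem free_iter {G : (Fin 2 → ℝ) → (Fin 2 → ℝ)} {hh : (Fin 2 → ℝ) ≃ₜ (Fin 2 → ℝ)}
    {β : Fin 2 → ℝ} (hβ : β ≠ 0) (hc : ∀ x, hh (G x) = hh x + β) {B : Set (Fin 2 → ℝ)}
    (hB : IsPathConnected B) (hfree : ∀ x ∈ B, G x ∉ B) (n : ℕ) (hn : 1 ≤ n) (x : Fin 2 → ℝ)
    (hx : x ∈ B) : G^[n] x ∉ B := by
  have hU : IsPathConnected (hh '' B) := hB.image hh.continuous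
  have hit : ∀ (n : ℕ) x, hh (G^[n] x) = hh x + (n : ℝ) • β := by
    intro n
    induction n with
    | zero => intro x; simp
    | succ n ih =>
      intro x
      rw [Function.iterate_succ_apply', hc, ih, Nat.cast_succ, add_smul, one_smul]
      abel
  have h := chord2 hβ hU (by
    rintro _ ⟨y, hy, rfl⟩ ⟨z, hz, hzy⟩
    apply hfree y hy
    have : G y = z := by
      apply hh.injective
      rw [hc, hzy]
    rw [this]
    exact hz) n hn _ ⟨x, hx, rfl⟩
  intro hx'
  apply h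
  rw [← hit]
  exact ⟨_, hx', rfl⟩

/-- The measure of a free path-connected set: if `n` preimages stay in the set `R` then
`n μ(B) ≤ μ(R)`. -/
theorem free_measure {G : (Fin 2 → ℝ) → (Fin 2 → ℝ)} {hh : (Fin 2 → ℝ) ≃ₜ (Fin 2 → ℝ)}
    {β : Fin 2 → ℝ} (hβ : β ≠ 0) (hc : ∀ x, hh (G x) = hh x + β) {B : Set (Fin 2 → ℝ)}
    (hB : IsPathConnected B) (hfree : ∀ x ∈ B, G x ∉ B) (hBm : MeasurableSet B)
    {μ : Measure (Fin 2 → ℝ)} (hG : MeasurePreserving G μ μ) (N : ℕ) (R : Set (Fin 2 → ℝ))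
    (hR : ∀ n < N, ∀ x, G^[n] x ∈ B → x ∈ R) : N * μ B ≤ μ R := by
  have hdisj : ∀ m n : ℕ, m < n → Disjoint ((G^[m]) ⁻¹' B) ((G^[n]) ⁻¹' B) := by
    intro m n hmn
    rw [Set.disjoint_left]
    intro x hm hn
    have h1 := free_iter hβ hc hB hfree (n - m) (by omega) _ hm
    apply h1
    rw [← Function.iterate_add_apply]
    have e : n - m + m = n := by omega
    rw [e]
    exact hn
  have hpair : Set.PairwiseDisjoint (↑(Finset.range N)) (fun n => (G^[n]) ⁻¹' B) := by
    intro m _ n _ hmn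
    rcases lt_or_gt_of_ne hmn with h | h
    · exact hdisj m n h
    · exact (hdisj n m h).symm
  have hmeas : ∀ n ∈ Finset.range N, MeasurableSet ((G^[n]) ⁻¹' B) := by
    intro n _
    exact (hG.iterate n).measurable hBm
  have h1 := measure_biUnion_finset (μ := μ) hpair hmeas
  have h2 : ∀ n ∈ Finset.range N, μ ((G^[n]) ⁻¹' B) = μ B := by
    intro n _
    exact (hG.iterate n).measure_preimage hBm.nullMeasurableSet
  rw [Finset.sum_congr rfl h2, Finset.sum_const, Finset.card_range, nsmul_eq_mul] at h1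
  rw [← h1]
  apply measure_mono
  intro x hx
  simp only [Set.mem_iUnion, Finset.mem_range] at hx
  obtain ⟨n, hn, hx⟩ := hx
  exact hR n hn x hx

end Pool.Agent.Lib.H96R
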