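import Pool.Agent.Lib.H96R.Scale

/-!
# H96R (MP_ef0847_an): interpolation inequalities with a local oscillation bound
-/

set_option autoImplicit false

open scoped ContDiff

namespace Pool.Agent.Lib.H96R

open Pool.Agent.Lib.H14U

/-- All derivatives of positive order of `H` are bounded. -/
def Bdd {d : ℕ} (H : (Fin d → ℝ) → (Fin d → ℝ)) : Prop :=
  ContDiff ℝ ∞ H ∧ ∀ k, 1 ≤ k → ∃ b : ℝ, ∀ x, ‖iteratedFDeriv ℝ k H x‖ ≤ b

/-- The oscillation of `H` on balls of radius `s` is at most `ε`. -/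
def Osc {d : ℕ} (H : (Fin d → ℝ) → (Fin d → ℝ)) (s ε : ℝ) : Prop :=
  ∀ x y, ‖x - y‖ ≤ s → ‖H x - H y‖ ≤ ε

/-- The first derivative. -/
theorem landau_loc {d : ℕ} {H : (Fin d → ℝ) → (Fin d → ℝ)} (hH : ContDiff ℝ ∞ H) {ε s : ℝ}
    (hosc : Osc H s ε) {b : ℝ} (hb : ∀ x, ‖iteratedFDeriv ℝ 2 H x‖ ≤ b)
    {u : ℝ} (hu : 0 < u) (hus : u ≤ s) (x : Fin d → ℝ) :
    ‖iteratedFDeriv ℝ 1 H x‖ ≤ ε * u⁻¹ + u * b := by
  have hb0 : 0 ≤ b := (norm_nonneg _).trans (hb x)
  have hε0 : 0 ≤ ε := (norm_nonneg _).trans (hosc x x (by rw [sub_self, norm_zero]; linarith))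
  rw [norm_iteratedFDeriv_one]
  refine ContinuousLinearMap.opNorm_le_of_unit_norm (by positivity) fun v hv => ?_
  have hw : ‖u • v‖ = u := by
    rw [norm_smul, Real.norm_of_nonneg hu.le, hv, mul_one]
  have h1 := taylor_two hH hb0 hb x (u • v) hu.le hw.le
  have h2 : ‖H (x + u • v) - H x‖ ≤ ε := by
    apply hosc
    have : x + u • v - x = u • v := by abel
    rw [this, hw]
    exact hus
  have h3 : ‖fderiv ℝ H x (u • v)‖ ≤ ε + b * u * u := by
    have e : fderiv ℝ H x (u • v) =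
        (H (x + u • v) - H x) - (H (x + u • v) - H x - fderiv ℝ H x (u • v)) := by abel
    rw [e]
    exact (norm_sub_le _ _).trans (add_le_add h2 h1)
  rw [map_smul, norm_smul, Real.norm_of_nonneg hu.le] at h3
  have h4 : ‖fderiv ℝ H x v‖ ≤ (ε + b * u * u) / u := by
    rw [le_div_iff₀ hu, mul_comm]
    exact h3
  refine h4.trans (le_of_eq ?_)
  field_simp

/-- Consecutive derivatives. -/
theorem chain_step (k : ℕ) : ∃ A : ℝ, 1 ≤ A ∧ ∀ (d : ℕ) (H : (Fin d → ℝ) → (Fin d → ℝ)), Bdd H →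
    ∀ ε s : ℝ, Osc H s ε → ∀ u : ℝ, 0 < u → u ≤ s → ∀ b : ℝ,
      (∀ x, ‖iteratedFDeriv ℝ (k + 2) H x‖ ≤ b) →
      ∀ x, ‖iteratedFDeriv ℝ (k + 1) H x‖ ≤ A * (ε * (u ^ (k + 1))⁻¹ + u * b) := by
  induction k with
  | zero =>
    refine ⟨1, le_rfl, fun d H hH ε s hosc u hu hus b hb x => ?_⟩
    rw [one_mul, zero_add, pow_one]
    exact landau_loc hH.1 hosc hb hu hus x
  | succ k ih =>
    obtain ⟨A, hA, h⟩ := ih
    refine ⟨4 * A * (4 * A) ^ (k + 1) + 2, by
      have : 0 ≤ 4 * A * (4 * A) ^ (k + 1) := by positivity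
      linarith, ?_⟩
    intro d H hH ε s hosc u hu hus b hb x
    have hb0 : 0 ≤ b := (norm_nonneg _).trans (hb x)
    have hs0 : 0 < s := hu.trans_le hus
    have hε0 : 0 ≤ ε := (norm_nonneg _).trans (hosc x x (by rw [sub_self, norm_zero]; linarith))
    obtain ⟨b', hb'⟩ := hH.2 (k + 2) (by omega)
    have hbdd : BddAbove (Set.range fun x => ‖iteratedFDeriv ℝ (k + 2) H x‖) := by
      refine ⟨b', ?_⟩
      rintro _ ⟨y, rfl⟩
      exact hb' y
    set M : ℝ := ⨆ x, ‖iteratedFDeriv ℝ (k + 2) H x‖ with hM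
    have hMx : ∀ x, ‖iteratedFDeriv ℝ (k + 2) H x‖ ≤ M := fun x => le_ciSup hbdd x
    have hM0 : 0 ≤ M := (norm_nonneg _).trans (hMx x)
    have hA0 : 0 < A := by linarith
    set θ : ℝ := u / (4 * A) with hθ
    have hθ0 : 0 < θ := by positivity
    have hθu : θ ≤ u := by
      rw [hθ, div_le_iff₀ (by positivity)]
      nlinarith
    have h1 := h d H hH ε s hosc θ hθ0 (hθu.trans hus) M hMx
    have h2 := fun y => landau_iter hH.1 (k + 1) _ b h1 hb u hu y
    have h3 : M ≤ 2 * (A * (ε * (θ ^ (k + 1))⁻¹ + θ * M)) / u + b * u := ciSup_le h2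
    have e1 : 2 * (A * (ε * (θ ^ (k + 1))⁻¹ + θ * M)) / u + b * u =
        2 * A * (4 * A) ^ (k + 1) * (ε * (u ^ (k + 1 + 1))⁻¹) + M / 2 + b * u := by
      rw [hθ, div_pow]
      field_simp
      ring
    rw [e1] at h3
    have h4 : M ≤ 4 * A * (4 * A) ^ (k + 1) * (ε * (u ^ (k + 1 + 1))⁻¹) + 2 * (u * b) := by
      linarith
    refine (hMx x).trans (h4.trans ?_)
    have h5 : 0 ≤ ε * (u ^ (k + 1 + 1))⁻¹ := by positivity
    have h6 : 0 ≤ u * b := by positivity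
    have h7 : 0 ≤ 4 * A * (4 * A) ^ (k + 1) := by positivity
    nlinarith

/-- **Interpolation.** -/
theorem interp (r : ℕ) (hr : 1 ≤ r) : ∃ A : ℝ, 1 ≤ A ∧
    ∀ (d : ℕ) (H : (Fin d → ℝ) → (Fin d → ℝ)), Bdd H →
    ∀ ε s : ℝ, 0 < s → Osc H s ε → (∀ x, ‖iteratedFDeriv ℝ r H x‖ * s ^ r ≤ ε) →
    ∀ k, 1 ≤ k → k ≤ r → ∀ x, ‖iteratedFDeriv ℝ k H x‖ * s ^ k ≤ A * ε := by
  induction r, hr using Nat.le_induction with
  | base =>
    refine ⟨1, le_rfl, fun d H _ ε s _ _ h k hk1 hk2 x => ?_⟩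
    obtain rfl : k = 1 := by omega
    rw [one_mul]
    exact h x
  | succ r hr ih =>
    obtain ⟨A, hA, hi⟩ := ih
    obtain ⟨B, hB, hc⟩ := chain_step (r - 1)
    have e1 : r - 1 + 1 = r := by omega
    have e2 : r - 1 + 2 = r + 1 := by omega
    rw [e1, e2] at hc
    refine ⟨A * (2 * B), by nlinarith, fun d H hH ε s hs hosc h k hk1 hk2 x => ?_⟩
    have hε0 : 0 ≤ ε := (norm_nonneg _).trans (hosc x x (by rw [sub_self, norm_zero]; linarith))
    have hAB : ε ≤ 2 * B * ε := by nlinarith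
    rcases Nat.lt_or_ge k (r + 1) with hk | hk
    · have h1 := hi d H hH (2 * B * ε) s hs (fun x y hxy => (hosc x y hxy).trans hAB) (fun y => by
        have h2 := hc d H hH ε s hosc s hs le_rfl (ε * (s ^ (r + 1))⁻¹) (fun z => by
          rw [← div_eq_mul_inv, le_div_iff₀ (by positivity)]
          exact h z) y
        calc ‖iteratedFDeriv ℝ r H y‖ * s ^ r
            ≤ (B * (ε * (s ^ r)⁻¹ + s * (ε * (s ^ (r + 1))⁻¹))) * s ^ r :=
              mul_le_mul_of_nonneg_right h2 (by positivity)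
          _ = 2 * B * ε := by
            rw [pow_succ]
            field_simp
            ring) k hk1 (by omega) x
      refine h1.trans (le_of_eq ?_)
      ring
    · obtain rfl : k = r + 1 := by omega
      refine (h x).trans ?_
      have h3 : 2 * B * ε ≤ A * (2 * B * ε) := le_mul_of_one_le_left (by positivity) hA
      calc ε ≤ 2 * B * ε := hAB
        _ ≤ A * (2 * B * ε) := h3
        _ = A * (2 * B) * ε := by ring

end Pool.Agent.Lib.H96R
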