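import Pool.Agent.Lib.H14U.Main

/-!
# H96R (MP_ef0847_an): the criterion `Crit` implies `C^∞`-rigidity
-/

set_option autoImplicit false

open scoped ContDiff

namespace Pool.Agent.Lib.H96R

open Pool.Agent.Lib.H14U

/-- The data of the criterion for the parameter `s`. -/
def CritAt {d : ℕ} (F : (Fin d → ℝ) → (Fin d → ℝ)) (s q : ℕ) (Γ : ℝ) (p : Fin d → ℤ) : Prop :=
  s ≤ q ∧ 1 ≤ q ∧ DerBound F q Γ ∧ ∀ x, ‖F^[q] x - x - zv p‖ * ((q : ℝ) * Γ) ^ s ≤ 1

theorem shift_smooth {d : ℕ} (c : Fin d → ℝ) : ContDiff ℝ ∞ (fun y : Fin d → ℝ => y + c) :=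
  contDiff_id.add contDiff_const

theorem shift_zero {d : ℕ} (c : Fin d → ℝ) (i : ℕ) (x : Fin d → ℝ) :
    ‖iteratedFDeriv ℝ (i + 2) (fun y : Fin d → ℝ => y + c) x‖ = 0 := by
  rw [← norm_iteratedFDeriv_fderiv]
  have h3 : fderiv ℝ (fun y : Fin d → ℝ => y + c) =
      fun _ => ContinuousLinearMap.id ℝ (Fin d → ℝ) := by
    funext y
    exact ((hasFDerivAt_id y).add_const c).fderiv
  rw [h3, iteratedFDeriv_const_of_ne (by omega)]
  simp

theorem small {d : ℕ} {F : (Fin d → ℝ) → (Fin d → ℝ)} (hF : ContDiff ℝ ∞ F)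
    (hc : ∀ (x : Fin d → ℝ) (k : Fin d → ℤ), F (x + zv k) = F x + zv k) (i : ℕ) :
    ∀ t : ℕ, ∃ s₀ : ℕ, ∀ s, s₀ ≤ s → ∀ q Γ p, CritAt F s q Γ p → ∀ x,
      ‖iteratedFDeriv ℝ i (fun y => F^[q] y - y - zv p) x‖ * ((q : ℝ) * Γ) ^ t ≤ 1 := by
  induction i with
  | zero =>
    intro t
    refine ⟨t, fun s hs q Γ p h x => ?_⟩
    obtain ⟨_, hq1, hΓ, hp⟩ := h
    rw [norm_iteratedFDeriv_zero]
    have hqR : (1 : ℝ) ≤ q := by exact_mod_cast hq1
    have hN : (1 : ℝ) ≤ (q : ℝ) * Γ := by nlinarith [hΓ.1]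
    refine le_trans (mul_le_mul_of_nonneg_left (pow_le_pow_right₀ hN hs) (norm_nonneg _)) (hp x)
  | succ i ih =>
    intro t
    obtain ⟨C, hC1, K, hK⟩ := growth hF hc (i + 2)
    obtain ⟨s₁, h₁⟩ := ih (K + 2 * t + 2)
    obtain ⟨s₂, h₂⟩ := exists_nat_ge (2 + C)
    refine ⟨max s₁ s₂, fun s hs q Γ p h x => ?_⟩
    have hs1 : s₁ ≤ s := le_trans (le_max_left _ _) hs
    have hs2 : s₂ ≤ s := le_trans (le_max_right _ _) hs
    obtain ⟨hsq, hq1, hΓ, hp⟩ := id h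
    have hqR : (1 : ℝ) ≤ q := by exact_mod_cast hq1
    set N : ℝ := (q : ℝ) * Γ with hN
    have hqN : (q : ℝ) ≤ N := by
      rw [hN]
      nlinarith [hΓ.1]
    have hN0 : 0 < N := by linarith
    have hNC : 2 + C ≤ N := by
      have h3 : (s₂ : ℝ) ≤ q := by exact_mod_cast hs2.trans hsq
      linarith
    have hFq : ContDiff ℝ ∞ (F^[q]) := iter_smooth hF q
    have hfun : (fun y => F^[q] y - y - zv p) = F^[q] - (fun y => y + zv p) := by
      funext y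
      show F^[q] y - y - zv p = F^[q] y - (y + zv p)
      abel
    have hsm : ContDiff ℝ ∞ (fun y => F^[q] y - y - zv p) := by
      rw [hfun]
      exact hFq.sub (shift_smooth _)
    have hle : ∀ m : ℕ, ((m : ℕ) : WithTop ℕ∞) ≤ ∞ := fun m => by
      exact_mod_cast le_top
    have hb : ∀ y, ‖iteratedFDeriv ℝ (i + 2) (fun y => F^[q] y - y - zv p) y‖ ≤ C * N ^ K := by
      intro y
      rw [hfun, iteratedFDeriv_sub_apply (hFq.of_le (hle (i + 2))).contDiffAt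
        ((shift_smooth _).of_le (hle (i + 2))).contDiffAt]
      refine (norm_sub_le _ _).trans ?_
      rw [shift_zero, add_zero]
      exact hK q hq1 Γ hΓ q le_rfl (i + 2) (by omega) le_rfl y
    have key := landau_iter hsm i (1 / N ^ (K + 2 * t + 2)) (C * N ^ K)
      (fun y => by
        rw [le_div_iff₀ (by positivity)]
        exact h₁ s hs1 q Γ p h y)
      hb (1 / N ^ (K + t + 1)) (by positivity) x
    calc ‖iteratedFDeriv ℝ (i + 1) (fun y => F^[q] y - y - zv p) x‖ * N ^ t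
        ≤ (2 * (1 / N ^ (K + 2 * t + 2)) / (1 / N ^ (K + t + 1)) +
            C * N ^ K * (1 / N ^ (K + t + 1))) * N ^ t :=
          mul_le_mul_of_nonneg_right key (by positivity)
      _ = (2 + C) / N := by
          have e1 : N ^ (K + 2 * t + 2) = N ^ K * N ^ t * N ^ t * N * N := by
            ring
          have e2 : N ^ (K + t + 1) = N ^ K * N ^ t * N := by ring
          rw [e1, e2]
          field_simp
      _ ≤ 1 := by
          rw [div_le_one hN0]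
          exact hNC

/-- The criterion implies `C^∞`-rigidity. -/
theorem rigid_of_crit {d : ℕ} {F : (Fin d → ℝ) → (Fin d → ℝ)} (hF : ContDiff ℝ ∞ F)
    (hc : ∀ (x : Fin d → ℝ) (k : Fin d → ℤ), F (x + zv k) = F x + zv k) (h : Crit F) :
    ∀ (r : ℕ) (ε : ℝ), 0 < ε → ∀ N : ℕ, ∃ q : ℕ, N ≤ q ∧ ∃ p : Fin d → ℤ, ∀ j, j ≤ r → ∀ x,
      ‖iteratedFDeriv ℝ j (fun y => F^[q] y - y - zv p) x‖ ≤ ε := by
  intro r ε hε N
  choose b hb using fun i => small hF hc i 1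
  obtain ⟨M, hM⟩ := exists_nat_gt (1 / ε)
  obtain ⟨q, hsq, hq1, Γ, hΓ, p, hp⟩ := h (max (∑ i ∈ Finset.range (r + 1), b i) (max N M))
  refine ⟨q, (le_max_left _ _).trans ((le_max_right _ _).trans hsq), p, fun j hj x => ?_⟩
  have h1 : b j ≤ ∑ i ∈ Finset.range (r + 1), b i :=
    Finset.single_le_sum (f := b) (fun _ _ => Nat.zero_le _) (Finset.mem_range.2 (by omega))
  have h2 := hb j _ (h1.trans (le_max_left _ (max N M))) q Γ p ⟨hsq, hq1, hΓ, hp⟩ x
  rw [pow_one] at h2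
  have hqR : (1 : ℝ) ≤ q := by exact_mod_cast hq1
  have hMq : (M : ℝ) ≤ q := by
    exact_mod_cast (le_max_right N M).trans ((le_max_right _ _).trans hsq)
  have hqN : (q : ℝ) ≤ (q : ℝ) * Γ := by nlinarith [hΓ.1]
  have h3 : 1 / ε < (q : ℝ) * Γ := by linarith
  have hN0 : 0 < (q : ℝ) * Γ := by linarith
  have h4 : ‖iteratedFDeriv ℝ j (fun y => F^[q] y - y - zv p) x‖ ≤ 1 / ((q : ℝ) * Γ) := by
    rw [le_div_iff₀ hN0]
    exact h2
  refine h4.trans ?_
  rw [div_le_iff₀ hN0]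
  rw [div_lt_iff₀ hε] at h3
  linarith

end Pool.Agent.Lib.H96R
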