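import Pool.Agent.Lib.H96R.Disp
import Pool.Agent.Lib.H96R.Smooth
import Pool.Agent.Lib.H96R.Equi

/-!
# H96R (MP_ef0847_an): assembly
-/

set_option autoImplicit false

open scoped ContDiff
open MeasureTheory

namespace Pool.Agent.Lib.H96R

open Pool.Agent.Lib.H14U Pool.Agent.Lib.H47C

/-- `α` is Liouville relative to the growth of the derivatives of the iterates of `F`. -/
def Fast {d : ℕ} (F : (Fin d → ℝ) → (Fin d → ℝ)) (α : Fin d → ℝ) : Prop :=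
  ∀ S : ℕ, ∃ q : ℕ, 2 ≤ q ∧ ∃ Γ : ℝ, DerBound F q Γ ∧ ∃ p : Fin d → ℤ, ∀ i,
    |(q : ℝ) * α i - p i| * ((q : ℝ) * Γ) ^ S ≤ 1

/-- Some positive exponential rate of approximation. -/
def ExpL {d : ℕ} (α : Fin d → ℝ) : Prop :=
  ∃ c : ℝ, 0 < c ∧ ∀ Q : ℕ, ∃ q : ℕ, Q ≤ q ∧ ∃ p : Fin d → ℤ, ∀ i,
    |(q : ℝ) * α i - p i| ≤ Real.exp (-(c * q))

/-- Vectors with a positive exponential rate of approximation are Liouville relative to every
smooth `F` with equicontinuous iterates. -/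
theorem fast_of_exp {d : ℕ} {α : Fin d → ℝ} {F : (Fin d → ℝ) → (Fin d → ℝ)} (hF : ContDiff ℝ ∞ F)
    (hc : ∀ (x : Fin d → ℝ) (k : Fin d → ℤ), F (x + zv k) = F x + zv k) (he : Equi F)
    (hL : ExpL α) : Fast F α := by
  obtain ⟨c, hc0, hL⟩ := hL
  intro S
  set η : ℝ := c / (2 * (S + 1)) with hη
  have hη0 : 0 < η := by positivity
  obtain ⟨C, hC, hG⟩ := subexp hF hc he hη0
  obtain ⟨Q₀, hQ₀⟩ := exists_nat_ge (2 * C / η ^ 2)
  obtain ⟨q, hq, p, hp⟩ := hL (max Q₀ 2)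
  have hq2 : 2 ≤ q := (le_max_right _ _).trans hq
  have hqQ : (Q₀ : ℝ) ≤ q := by exact_mod_cast (le_max_left _ _).trans hq
  have hq0 : (0 : ℝ) < q := by
    have : (2 : ℝ) ≤ q := by exact_mod_cast hq2
    linarith
  refine ⟨q, hq2, C * Real.exp (η * q), hG q, p, fun i => ?_⟩
  have h1 : (q : ℝ) * C ≤ Real.exp (η * q) := by
    have h2 := Real.quadratic_le_exp_of_nonneg (show 0 ≤ η * q by positivity)
    have h3 : 2 * C ≤ η ^ 2 * q := by
      have h4 : 2 * C / η ^ 2 ≤ q := hQ₀.trans hqQ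
      rw [div_le_iff₀ (by positivity)] at h4
      linarith
    have h5 : (q : ℝ) * C ≤ (η * q) ^ 2 / 2 := by
      have h6 := mul_le_mul_of_nonneg_left h3 hq0.le
      have e : (q : ℝ) * (η ^ 2 * q) = (η * q) ^ 2 := by ring
      rw [e] at h6
      linarith
    have h7 : 0 ≤ η * q := by positivity
    linarith
  have h2 : ((q : ℝ) * (C * Real.exp (η * q))) ^ S ≤ Real.exp (c * q) := by
    have h3 : (q : ℝ) * (C * Real.exp (η * q)) ≤ Real.exp (2 * η * q) := by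
      calc (q : ℝ) * (C * Real.exp (η * q)) = (q * C) * Real.exp (η * q) := by ring
        _ ≤ Real.exp (η * q) * Real.exp (η * q) :=
          mul_le_mul_of_nonneg_right h1 (Real.exp_pos _).le
        _ = Real.exp (2 * η * q) := by
          rw [← Real.exp_add]
          congr 1
          ring
    calc ((q : ℝ) * (C * Real.exp (η * q))) ^ S ≤ (Real.exp (2 * η * q)) ^ S :=
          pow_le_pow_left₀ (by positivity) h3 S
      _ = Real.exp (S * (2 * η * q)) := by rw [← Real.exp_nat_mul]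
      _ ≤ Real.exp (c * q) := by
        apply Real.exp_le_exp.2
        have e : (S : ℝ) * (2 * η * q) = c * q * (S / (S + 1)) := by
          rw [hη]
          field_simp
        rw [e]
        have h4 : (S : ℝ) / (S + 1) ≤ 1 := by
          rw [div_le_one (by positivity)]
          linarith
        have h5 : 0 ≤ c * q := by positivity
        nlinarith
  calc |(q : ℝ) * α i - p i| * ((q : ℝ) * (C * Real.exp (η * q))) ^ S
      ≤ Real.exp (-(c * q)) * Real.exp (c * q) :=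
        mul_le_mul (hp i) h2 (by positivity) (Real.exp_pos _).le
    _ = 1 := by rw [← Real.exp_add, neg_add_cancel, Real.exp_zero]

/-- The displacement bound gives the criterion. -/
theorem crit_of_fast {F G : (Fin 2 → ℝ) → (Fin 2 → ℝ)} (hS : Sys F G) {α : Fin 2 → ℝ}
    (hα : ∀ k : Fin 2 → ℤ, k ≠ 0 → ∀ m : ℤ, ∑ i, (k i : ℝ) * α i ≠ (m : ℝ))
    {hh : (Fin 2 → ℝ) ≃ₜ (Fin 2 → ℝ)} {A B : Matrix (Fin 2) (Fin 2) ℤ} {m : Fin 2 → ℤ}
    (hc : Conj F α hh A B m) {μ : Measure (Fin 2 → ℝ)} (hμ : Inv F μ) (hf : Fast F α) :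
    Crit F := by
  intro s
  obtain ⟨D, hD, K, hdisp⟩ := disp hS hα hc hμ
  obtain ⟨E, hE⟩ : ∃ E : ℕ, 4 ^ (K + 1) * D ≤ 2 ^ E := by
    obtain ⟨E, hE⟩ := pow_unbounded_of_one_lt (4 ^ (K + 1) * D) (show (1 : ℝ) < 2 by norm_num)
    exact ⟨E, hE.le⟩
  obtain ⟨ρ₀, hρ₀, hlarge⟩ := large_q (by norm_num : 1 ≤ 2) α hα s
  obtain ⟨n, hn⟩ := exists_pow_lt_of_lt_one hρ₀ (show (1 / 2 : ℝ) < 1 by norm_num)
  obtain ⟨q, hq2, Γ, hΓ, p, hp⟩ := hf ((s + 1) * (K + 1) + E + n)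
  have hqR : (2 : ℝ) ≤ q := by exact_mod_cast hq2
  have hΓ1 := hΓ.1
  set N : ℝ := (q : ℝ) * Γ with hN
  have hN2 : 2 ≤ N := by
    rw [hN]
    nlinarith
  have hN0 : 0 < N := by linarith
  have hN1 : 1 ≤ N := by linarith
  have hΓN : Γ ≤ N := by
    rw [hN]
    nlinarith
  set δ : ℝ := (N ^ ((s + 1) * (K + 1) + E + n))⁻¹ with hδ
  have hδ0 : 0 < δ := by
    rw [hδ]
    positivity
  have hpδ : ∀ i, |(q : ℝ) * α i - p i| ≤ δ := by
    intro i
    rw [hδ, ← one_div, le_div_iff₀ (by positivity)]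
    exact hp i
  have hEN : (2 : ℝ) ^ E ≤ N ^ E := pow_le_pow_left₀ (by norm_num) hN2 E
  have hnN : (1 : ℝ) ≤ N ^ n := one_le_pow₀ hN1
  have hsN : (1 : ℝ) ≤ N ^ ((s + 1) * (K + 1)) := one_le_pow₀ hN1
  have hprod : δ * (N ^ ((s + 1) * (K + 1)) * N ^ E * N ^ n) = 1 := by
    rw [hδ, ← pow_add, ← pow_add]
    exact inv_mul_cancel₀ (by positivity)
  have hbig : 4 ^ (K + 1) * D * δ * N ^ ((s + 1) * (K + 1)) ≤ 1 := by
    calc 4 ^ (K + 1) * D * δ * N ^ ((s + 1) * (K + 1))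
        ≤ N ^ E * δ * N ^ ((s + 1) * (K + 1)) := by
          have h1 : 4 ^ (K + 1) * D ≤ N ^ E := hE.trans hEN
          gcongr
      _ = δ * (N ^ ((s + 1) * (K + 1)) * N ^ E * 1) := by ring
      _ ≤ δ * (N ^ ((s + 1) * (K + 1)) * N ^ E * N ^ n) := by gcongr
      _ = 1 := hprod
  have hDδ : D * δ < 1 := by
    have h4 : (4 : ℝ) ≤ 4 ^ (K + 1) := by
      calc (4 : ℝ) = 4 ^ 1 := (pow_one _).symm
        _ ≤ 4 ^ (K + 1) := pow_le_pow_right₀ (by norm_num) (by omega)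
    have h5 : 4 * (D * δ) ≤ 4 ^ (K + 1) * (D * δ) := by gcongr
    have h6 : 4 ^ (K + 1) * (D * δ) ≤ 4 ^ (K + 1) * (D * δ) * N ^ ((s + 1) * (K + 1)) :=
      le_mul_of_one_le_right (by positivity) hsN
    have h7 : 4 ^ (K + 1) * (D * δ) * N ^ ((s + 1) * (K + 1)) =
        4 ^ (K + 1) * D * δ * N ^ ((s + 1) * (K + 1)) := by ring
    have h8 : 0 < D * δ := by positivity
    linarith
  have hρ : δ ≤ ρ₀ := by
    have h1 : (2 : ℝ) ^ n ≤ N ^ ((s + 1) * (K + 1) + E + n) :=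
      (pow_le_pow_left₀ (by norm_num) hN2 n).trans (pow_le_pow_right₀ hN1 (by omega))
    have h3 : (N ^ ((s + 1) * (K + 1) + E + n))⁻¹ ≤ ((2 : ℝ) ^ n)⁻¹ := inv_anti₀ (by positivity) h1
    have h4 : ((2 : ℝ) ^ n)⁻¹ = (1 / 2) ^ n := by rw [one_div, inv_pow]
    rw [h4] at h3
    exact h3.trans hn.le
  have hsq : s < q := hlarge q (by omega) p (fun i => (hpδ i).trans hρ)
  obtain ⟨k, hk⟩ := hdisp q Γ (by omega) hΓ p δ hpδ hDδ
  refine ⟨q, hsq.le, by omega, Γ, hΓ, k, fun x => ?_⟩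
  set a : ℝ := ‖F^[q] x - x - zv k‖ with ha
  have ha0 : 0 ≤ a := norm_nonneg _
  have h9 : (a * N ^ s) ^ (K + 1) ≤ 1 := by
    calc (a * N ^ s) ^ (K + 1) = a ^ (K + 1) * (N ^ s) ^ (K + 1) := mul_pow _ _ _
      _ ≤ ((4 * Γ) ^ (K + 1) * (D * δ)) * (N ^ s) ^ (K + 1) := by
          have := hk x
          gcongr
      _ ≤ ((4 * N) ^ (K + 1) * (D * δ)) * (N ^ s) ^ (K + 1) := by
          gcongr
      _ = 4 ^ (K + 1) * D * δ * N ^ ((s + 1) * (K + 1)) := by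
          rw [mul_pow, ← pow_mul, add_mul s 1 (K + 1), pow_add, one_mul]
          ring
      _ ≤ 1 := hbig
  exact (pow_le_one_iff_of_nonneg (by positivity) (by omega)).1 h9

/-- The main theorem. -/
theorem main (α : Fin 2 → ℝ)
    (hα : ∀ k : Fin 2 → ℤ, k ≠ 0 → ∀ m : ℤ, ∑ i, (k i : ℝ) * α i ≠ (m : ℝ))
    (F G : (Fin 2 → ℝ) → (Fin 2 → ℝ)) (hS : Sys F G)
    (h : (Fin 2 → AddCircle (1 : ℝ)) ≃ₜ (Fin 2 → AddCircle (1 : ℝ)))
    (hconj : ∀ x : Fin 2 → ℝ, h (pr (F x)) = h (pr x) + pr α)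
    (μ : Measure (Fin 2 → ℝ)) (hμ : Inv F μ)
    (hL : Fast F α ∨ ExpL α) :
    ¬ ClosedCob F ∧
      ∀ (r : ℕ) (ε : ℝ), 0 < ε → ∀ N : ℕ, ∃ q : ℕ, N ≤ q ∧ ∃ p : Fin 2 → ℤ, ∀ j, j ≤ r → ∀ x,
        ‖iteratedFDeriv ℝ j (fun y => F^[q] y - y - zv p) x‖ ≤ ε := by
  have hFc : Continuous F := hS.smoothF.continuous
  have hR : Rigid F := rigid_of_conj α hα F h hconj
  obtain ⟨hh, A, B, m, hc, _⟩ := exists_conj α F hFc h hconj
  have hf : Fast F α := by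
    rcases hL with hL | hL
    · exact hL
    · exact fast_of_exp hS.smoothF hS.comm (equi_of_conj α F hFc h hconj) hL
  have hcrit : Crit F := crit_of_fast hS hα hc hμ hf
  exact ⟨criterion (by norm_num) hS hR hcrit, rigid_of_crit hS.smoothF hS.comm hcrit⟩

/-- Lebesgue measure satisfies the conditions for an area preserving `F`. -/
theorem inv_volume {F : (Fin 2 → ℝ) → (Fin 2 → ℝ)} (hF : MeasurePreserving F volume volume) :
    Inv F volume := by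
  refine ⟨hF, fun k => measurePreserving_add_right volume (zv k), fun R => measure_ball_lt_top, ?_⟩
  refine ⟨4, by norm_num, 2, fun x r hr _ => ?_⟩
  rw [Real.volume_pi_ball x hr]
  simp only [Fintype.card_fin]
  apply ENNReal.ofReal_le_ofReal
  nlinarith [sq_nonneg r]

end Pool.Agent.Lib.H96R
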