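import Pool.Agent.Lib.H96R.Power
import Pool.Agent.Lib.H96R.Main

/-!
# H96R (MP_ef0847_an): Hoelder conjugacies, every dimension
-/

set_option autoImplicit false

open scoped ContDiff

namespace Pool.Agent.Lib.H96R

open Pool.Agent.Lib.H14U

/-- Approximation at the rate `exp (-q ^ κ)`. -/
def PowL {d : ℕ} (α : Fin d → ℝ) : Prop :=
  ∃ κ : ℝ, 0 < κ ∧ ∀ Q : ℕ, ∃ q : ℕ, Q ≤ q ∧ ∃ p : Fin d → ℤ, ∀ i,
    |(q : ℝ) * α i - p i| ≤ Real.exp (-((q : ℝ) ^ κ))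

theorem fast_of_pow {d : ℕ} {α : Fin d → ℝ} {F : (Fin d → ℝ) → (Fin d → ℝ)} (hF : ContDiff ℝ ∞ F)
    (hc : ∀ (x : Fin d → ℝ) (k : Fin d → ℤ), F (x + zv k) = F x + zv k) {K β δ₀ : ℝ} (hK : 0 ≤ K)
    (hβ : 0 < β) (hδ₀ : 0 < δ₀) (hH : HEqui F K β δ₀) (hL : PowL α) : Fast F α := by
  obtain ⟨κ, hκ, hL⟩ := hL
  intro S
  have hκ2 : 0 < κ / 2 := by positivity
  obtain ⟨C, hC, hG⟩ := power hF hc hK hβ hδ₀ hH hκ2
  obtain ⟨Q₀, hQ₀⟩ := exists_nat_ge ((S * (2 / κ + C)) ^ (2 / κ))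
  obtain ⟨q, hq, p, hp⟩ := hL (max Q₀ 2)
  have hq2 : 2 ≤ q := (le_max_right _ _).trans hq
  have hqQ : (Q₀ : ℝ) ≤ q := by exact_mod_cast (le_max_left _ _).trans hq
  have hq0 : (0 : ℝ) < q := by
    have : (2 : ℝ) ≤ q := by exact_mod_cast hq2
    linarith
  refine ⟨q, hq2, Real.exp (C * (q : ℝ) ^ (κ / 2)), hG q (by omega), p, fun i => ?_⟩
  set t : ℝ := (q : ℝ) ^ (κ / 2) with ht
  have ht0 : 0 < t := Real.rpow_pos_of_pos hq0 _
  have htt : t * t = (q : ℝ) ^ κ := by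
    rw [ht, ← Real.rpow_add hq0]
    congr 1
    ring
  have hbase : 0 ≤ (S : ℝ) * (2 / κ + C) := by positivity
  have hSt : (S : ℝ) * (2 / κ + C) ≤ t := by
    have h1 : (((S : ℝ) * (2 / κ + C)) ^ (2 / κ)) ^ (κ / 2) = (S : ℝ) * (2 / κ + C) := by
      rw [← Real.rpow_mul hbase]
      have : 2 / κ * (κ / 2) = 1 := by field_simp
      rw [this, Real.rpow_one]
    rw [← h1, ht]
    exact Real.rpow_le_rpow (Real.rpow_nonneg hbase _) (hQ₀.trans hqQ) hκ2.le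
  have hqt : (q : ℝ) ≤ Real.exp (2 / κ * t) := by
    have h1 := Real.log_le_rpow_div hq0.le hκ2
    have h2 : (q : ℝ) = Real.exp (Real.log q) := (Real.exp_log hq0).symm
    rw [h2]
    apply Real.exp_le_exp.2
    refine h1.trans (le_of_eq ?_)
    rw [ht]
    field_simp
  have h3 : (q : ℝ) * Real.exp (C * t) ≤ Real.exp ((2 / κ + C) * t) := by
    rw [add_mul, Real.exp_add]
    exact mul_le_mul_of_nonneg_right hqt (Real.exp_pos _).le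
  calc |(q : ℝ) * α i - p i| * ((q : ℝ) * Real.exp (C * t)) ^ S
      ≤ Real.exp (-((q : ℝ) ^ κ)) * (Real.exp ((2 / κ + C) * t)) ^ S := by
        apply mul_le_mul (hp i) _ (by positivity) (Real.exp_pos _).le
        exact pow_le_pow_left₀ (by positivity) h3 S
    _ = Real.exp (S * ((2 / κ + C) * t) - t * t) := by
      rw [← Real.exp_nat_mul, ← Real.exp_add, htt]
      congr 1
      ring
    _ ≤ 1 := by
      apply Real.exp_le_one_iff.2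
      have h4 := mul_le_mul_of_nonneg_right hSt ht0.le
      have e : (S : ℝ) * ((2 / κ + C) * t) = S * (2 / κ + C) * t := by ring
      rw [e]
      linarith

/-- The criterion from a Hoelder inverse of the conjugacy. -/
theorem crit_of_fast_holder {d : ℕ} (hd : 1 ≤ d) (α : Fin d → ℝ)
    (hα : ∀ k : Fin d → ℤ, k ≠ 0 → ∀ m : ℤ, ∑ i, (k i : ℝ) * α i ≠ (m : ℝ))
    (F : (Fin d → ℝ) → (Fin d → ℝ)) (hFc : Continuous F)
    (h : (Fin d → AddCircle (1 : ℝ)) ≃ₜ (Fin d → AddCircle (1 : ℝ)))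
    (hconj : ∀ x : Fin d → ℝ, h (pr (F x)) = h (pr x) + pr α) (K β : ℝ) (hK : 0 ≤ K) (hβ : 0 < β)
    (hs : ∀ a b, dist (h.symm a) (h.symm b) ≤ K * dist a b ^ β) (hf : Fast F α) : Crit F := by
  intro s
  obtain ⟨E, hE⟩ := pow_unbounded_of_one_lt (2 * K + 1) (show (1 : ℝ) < 2 by norm_num)
  obtain ⟨e, he⟩ := exists_nat_ge (1 / β)
  have heβ : 1 ≤ (e : ℝ) * β := by rwa [div_le_iff₀ hβ] at he
  obtain ⟨ρ₀, hρ₀, hlarge⟩ := large_q hd α hα s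
  obtain ⟨n, hn⟩ := exists_pow_lt_of_lt_one hρ₀ (show (1 / 2 : ℝ) < 1 by norm_num)
  obtain ⟨q, hq2, Γ, hΓ, p, hp⟩ := hf (e * (s + E) + n)
  have hqR : (2 : ℝ) ≤ q := by exact_mod_cast hq2
  have hΓ1 := hΓ.1
  set N : ℝ := (q : ℝ) * Γ with hN
  have hN2 : 2 ≤ N := by
    rw [hN]
    nlinarith
  have hN0 : 0 < N := by linarith
  have hN1 : 1 ≤ N := by linarith
  set δ : ℝ := (N ^ (e * (s + E) + n))⁻¹ with hδ
  have hδ0 : 0 < δ := by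
    rw [hδ]
    positivity
  have hpδ : ∀ i, |(q : ℝ) * α i - p i| ≤ δ := by
    intro i
    rw [hδ, ← one_div, le_div_iff₀ (by positivity)]
    exact hp i
  have hρ : δ ≤ ρ₀ := by
    have h1 : (2 : ℝ) ^ n ≤ N ^ (e * (s + E) + n) :=
      (pow_le_pow_left₀ (by norm_num) hN2 n).trans (pow_le_pow_right₀ hN1 (by omega))
    have h3 : (N ^ (e * (s + E) + n))⁻¹ ≤ ((2 : ℝ) ^ n)⁻¹ := inv_anti₀ (by positivity) h1
    have h4 : ((2 : ℝ) ^ n)⁻¹ = (1 / 2) ^ n := by rw [one_div, inv_pow]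
    rw [h4] at h3
    exact h3.trans hn.le
  have hsq : s < q := hlarge q (by omega) p (fun i => (hpδ i).trans hρ)
  have hδβ : δ ^ β ≤ (N ^ (s + E))⁻¹ := by
    rw [hδ, ← Real.rpow_natCast, ← Real.rpow_neg hN0.le, ← Real.rpow_mul hN0.le,
      ← Real.rpow_natCast, ← Real.rpow_neg hN0.le]
    apply Real.rpow_le_rpow_of_exponent_le hN1
    push_cast
    have h1 : (s : ℝ) + E ≤ (e * β) * (s + E) := le_mul_of_one_le_left (by positivity) heβ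
    have h2 : 0 ≤ (n : ℝ) * β := by positivity
    have h3 : -(((e : ℝ) * (s + E) + n)) * β = -((e * β) * (s + E)) - n * β := by ring
    rw [h3]
    linarith
  have hKN : K * (N ^ E)⁻¹ < 1 / 2 := by
    have h1 : (2 : ℝ) ^ E ≤ N ^ E := pow_le_pow_left₀ (by norm_num) hN2 E
    have h2 : 0 < N ^ E := by positivity
    rw [← div_eq_mul_inv, div_lt_iff₀ h2]
    linarith
  have hNs : (1 : ℝ) ≤ N ^ s := one_le_pow₀ hN1
  have hKδ : K * δ ^ β ≤ K * (N ^ E)⁻¹ * (N ^ s)⁻¹ := by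
    calc K * δ ^ β ≤ K * (N ^ (s + E))⁻¹ := mul_le_mul_of_nonneg_left hδβ hK
      _ = K * (N ^ E)⁻¹ * (N ^ s)⁻¹ := by
        rw [pow_add, mul_inv]
        ring
  have hKE0 : 0 ≤ K * (N ^ E)⁻¹ := by positivity
  have hsmall : K * δ ^ β < 1 / 2 := by
    refine (hKδ.trans ?_).trans_lt hKN
    exact mul_le_of_le_one_right hKE0 (inv_le_one_of_one_le₀ hNs)
  obtain ⟨p', hp'⟩ := displacement α F hFc h hconj K β hK hβ hs q p δ hδ0.le hpδ hsmall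
  refine ⟨q, hsq.le, by omega, Γ, hΓ, p', fun x => ?_⟩
  calc ‖F^[q] x - x - zv p'‖ * N ^ s ≤ (K * (N ^ E)⁻¹ * (N ^ s)⁻¹) * N ^ s :=
        mul_le_mul_of_nonneg_right ((hp' x).trans hKδ) (by positivity)
    _ = K * (N ^ E)⁻¹ := by
      rw [mul_assoc, inv_mul_cancel₀ (by positivity), mul_one]
    _ ≤ 1 := by linarith

/-- The main theorem for Hoelder conjugacies. -/
theorem mainB {d : ℕ} (hd : 1 ≤ d) (α : Fin d → ℝ)
    (hα : ∀ k : Fin d → ℤ, k ≠ 0 → ∀ m : ℤ, ∑ i, (k i : ℝ) * α i ≠ (m : ℝ))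
    (F G : (Fin d → ℝ) → (Fin d → ℝ)) (hS : Sys F G)
    (h : (Fin d → AddCircle (1 : ℝ)) ≃ₜ (Fin d → AddCircle (1 : ℝ)))
    (hconj : ∀ x : Fin d → ℝ, h (pr (F x)) = h (pr x) + pr α)
    (K β₁ β₂ : ℝ) (hK : 0 ≤ K) (hβ₁ : 0 < β₁) (hβ₂ : 0 < β₂)
    (hs : ∀ a b, dist (h.symm a) (h.symm b) ≤ K * dist a b ^ β₁)
    (hL : ((∀ a b, dist (h a) (h b) ≤ K * dist a b ^ β₂) ∧ PowL α) ∨ ExpL α) :
    ¬ ClosedCob F ∧
      ∀ (r : ℕ) (ε : ℝ), 0 < ε → ∀ N : ℕ, ∃ q : ℕ, N ≤ q ∧ ∃ p : Fin d → ℤ, ∀ j, j ≤ r → ∀ x,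
        ‖iteratedFDeriv ℝ j (fun y => F^[q] y - y - zv p) x‖ ≤ ε := by
  have hFc : Continuous F := hS.smoothF.continuous
  have hR : Rigid F := rigid_of_conj α hα F h hconj
  have hf : Fast F α := by
    rcases hL with ⟨hh, hL⟩ | hL
    · obtain ⟨K', hK', δ, hδ, hH⟩ := holder_lift α F hFc h hconj K β₁ β₂ hK hβ₁ hβ₂ hs hh
      exact fast_of_pow hS.smoothF hS.comm hK' (mul_pos hβ₁ hβ₂) hδ hH hL
    · exact fast_of_exp hS.smoothF hS.comm (equi_of_conj α F hFc h hconj) hL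
  have hcrit : Crit F := crit_of_fast_holder hd α hα F hFc h hconj K β₁ hK hβ₁ hs hf
  exact ⟨criterion hd hS hR hcrit, rigid_of_crit hS.smoothF hS.comm hcrit⟩

end Pool.Agent.Lib.H96R
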