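import Pool.Agent.Lib.H96R.MainB

/-!
# H96R (MP_ef0847_an): bi-Hoelder conjugacies with exponents of product larger than `1/2`

The polynomial bound of the derivatives is `H14U.gamma_poly` (helper14).
-/

set_option autoImplicit false

open scoped ContDiff

namespace Pool.Agent.Lib.H96R

open Pool.Agent.Lib.H14U

theorem fast_of_poly {d : ℕ} {α : Fin d → ℝ} {F : (Fin d → ℝ) → (Fin d → ℝ)} {C : ℝ} (hC : 1 ≤ C)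
    {κ : ℕ} (hG : ∀ q : ℕ, 1 ≤ q → DerBound F q (C * (q : ℝ) ^ κ))
    (hL : ∀ S : ℕ, ∃ q : ℕ, 2 ≤ q ∧ ∃ p : Fin d → ℤ, ∀ i,
      |(q : ℝ) * α i - p i| ≤ ((q : ℝ) ^ S)⁻¹) : Fast F α := by
  intro S
  obtain ⟨c, hc⟩ := pow_unbounded_of_one_lt C (show (1 : ℝ) < 2 by norm_num)
  obtain ⟨q, hq, p, hp⟩ := hL ((1 + (c + κ)) * S)
  have hqR : (2 : ℝ) ≤ q := by exact_mod_cast hq
  have hq0 : (0 : ℝ) < q := by linarith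
  refine ⟨q, hq, C * (q : ℝ) ^ κ, hG q (by omega), p, fun i => ?_⟩
  have h1 : C ≤ (q : ℝ) ^ c := hc.le.trans (pow_le_pow_left₀ (by norm_num) hqR c)
  have h2 : (q : ℝ) * (C * (q : ℝ) ^ κ) ≤ (q : ℝ) ^ (1 + (c + κ)) := by
    rw [pow_add, pow_add, pow_one]
    have h3 : C * (q : ℝ) ^ κ ≤ (q : ℝ) ^ c * (q : ℝ) ^ κ :=
      mul_le_mul_of_nonneg_right h1 (by positivity)
    exact mul_le_mul_of_nonneg_left h3 hq0.le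
  have h4 : ((q : ℝ) * (C * (q : ℝ) ^ κ)) ^ S ≤ (q : ℝ) ^ ((1 + (c + κ)) * S) := by
    rw [pow_mul]
    exact pow_le_pow_left₀ (by positivity) h2 S
  have h5 : (0 : ℝ) < (q : ℝ) ^ ((1 + (c + κ)) * S) := by positivity
  calc |(q : ℝ) * α i - p i| * ((q : ℝ) * (C * (q : ℝ) ^ κ)) ^ S
      ≤ ((q : ℝ) ^ ((1 + (c + κ)) * S))⁻¹ * (q : ℝ) ^ ((1 + (c + κ)) * S) :=
        mul_le_mul (hp i) h4 (by positivity) (by positivity)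
    _ = 1 := inv_mul_cancel₀ h5.ne'

/-- The theorem for exponents of product larger than `1/2`. -/
theorem mainC {d : ℕ} (hd : 1 ≤ d) (α : Fin d → ℝ)
    (hα : ∀ k : Fin d → ℤ, k ≠ 0 → ∀ m : ℤ, ∑ i, (k i : ℝ) * α i ≠ (m : ℝ))
    (F G : (Fin d → ℝ) → (Fin d → ℝ)) (hS : Sys F G)
    (h : (Fin d → AddCircle (1 : ℝ)) ≃ₜ (Fin d → AddCircle (1 : ℝ)))
    (hconj : ∀ x : Fin d → ℝ, h (pr (F x)) = h (pr x) + pr α)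
    (K β₁ β₂ : ℝ) (hK : 0 ≤ K) (hβ₁ : 0 < β₁) (hβ₂ : 0 < β₂) (hβ₁' : β₁ ≤ 1) (hβ₂' : β₂ ≤ 1)
    (hs : ∀ a b, dist (h.symm a) (h.symm b) ≤ K * dist a b ^ β₁)
    (hh : ∀ a b, dist (h a) (h b) ≤ K * dist a b ^ β₂) (hb : 1 / 2 < β₁ * β₂)
    (hL : ∀ S : ℕ, ∃ q : ℕ, 2 ≤ q ∧ ∃ p : Fin d → ℤ, ∀ i,
      |(q : ℝ) * α i - p i| ≤ ((q : ℝ) ^ S)⁻¹) :
    ¬ ClosedCob F ∧
      ∀ (r : ℕ) (ε : ℝ), 0 < ε → ∀ N : ℕ, ∃ q : ℕ, N ≤ q ∧ ∃ p : Fin d → ℤ, ∀ j, j ≤ r → ∀ x,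
        ‖iteratedFDeriv ℝ j (fun y => F^[q] y - y - zv p) x‖ ≤ ε := by
  have hFc : Continuous F := hS.smoothF.continuous
  have hR : Rigid F := rigid_of_conj α hα F h hconj
  obtain ⟨K', hK', δ, hδ, hH⟩ := holder_lift α F hFc h hconj K β₁ β₂ hK hβ₁ hβ₂ hs hh
  have hβ1 : β₁ * β₂ ≤ 1 := by nlinarith
  obtain ⟨C, hC, κ, hG⟩ := gamma_poly hd hS.smoothF hS.comm K' (β₁ * β₂) δ hK' hb hβ1 hδ hH
  have hf : Fast F α := fast_of_poly hC hG hL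
  have hcrit : Crit F := crit_of_fast_holder hd α hα F hFc h hconj K β₁ hK hβ₁ hs hf
  exact ⟨criterion hd hS hR hcrit, rigid_of_crit hS.smoothF hS.comm hcrit⟩

end Pool.Agent.Lib.H96R
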