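import Pool.Agent.Lib.H96R.Slow

/-!
# H96R (MP_ef0847_an): subexponential growth of the derivatives of equicontinuous iterates
-/

set_option autoImplicit false

open scoped ContDiff

namespace Pool.Agent.Lib.H96R

open Pool.Agent.Lib.H14U

/-- The iterates of `F` are uniformly equicontinuous. -/
def Equi {d : ℕ} (F : (Fin d → ℝ) → (Fin d → ℝ)) : Prop :=
  ∀ ε : ℝ, 0 < ε → ∃ δ : ℝ, 0 < δ ∧ ∀ n, Osc (F^[n]) δ ε

/-- The root of order `r` used as the refinement factor. -/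
theorem root_spec {r : ℕ} (hr : 1 ≤ r) {y : ℝ} (hy : 1 ≤ y) :
    1 ≤ y ^ ((r : ℝ)⁻¹) ∧ (y ^ ((r : ℝ)⁻¹)) ^ r = y ∧
      Real.log (y ^ ((r : ℝ)⁻¹)) = Real.log y / r := by
  refine ⟨Real.one_le_rpow hy (by positivity), Real.rpow_inv_natCast_pow (by linarith) (by omega),
    ?_⟩
  rw [Real.log_rpow (by linarith)]
  ring

theorem subexp {d : ℕ} {F : (Fin d → ℝ) → (Fin d → ℝ)} (hF : ContDiff ℝ ∞ F)
    (hc : ∀ (x : Fin d → ℝ) (k : Fin d → ℤ), F (x + zv k) = F x + zv k) (he : Equi F)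
    {η : ℝ} (hη : 0 < η) : ∃ C : ℝ, 1 ≤ C ∧ ∀ n : ℕ, DerBound F n (C * Real.exp (η * n)) := by
  obtain ⟨L₀, hL₀, hG⟩ := gamma_exp hF hc
  have hlogL : 0 ≤ Real.log L₀ := Real.log_nonneg hL₀
  have hL₀0 : 0 < L₀ := by linarith
  obtain ⟨r₀, hr₀⟩ := exists_nat_ge (2 * Real.log L₀ / η)
  set r : ℕ := r₀ + 1 with hr
  have hr1 : 1 ≤ r := by omega
  have hrL : Real.log L₀ ≤ η / 2 * r := by
    rw [div_le_iff₀ hη] at hr₀
    have h1 : (r : ℝ) = r₀ + 1 := by rw [hr]; push_cast; ring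
    rw [h1]
    nlinarith
  obtain ⟨A, hA, hslow⟩ := slow r hr1
  have hA0 : 0 < A := by linarith
  have hfac : (1 : ℝ) ≤ r.factorial := by exact_mod_cast r.factorial_pos
  obtain ⟨p₀, hp₀⟩ := exists_nat_ge (2 * (Real.log A + Real.log r.factorial / r) / η)
  set p : ℕ := p₀ + 1 with hp
  have hp1 : 1 ≤ p := by omega
  have hpA : Real.log A + Real.log r.factorial / r ≤ η / 2 * p := by
    rw [div_le_iff₀ hη] at hp₀
    have h1 : (p : ℝ) = p₀ + 1 := by rw [hp]; push_cast; ring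
    rw [h1]
    nlinarith
  have hGs : ContDiff ℝ ∞ (F^[p]) := iter_smooth hF p
  have hGc : ∀ (x : Fin d → ℝ) (k : Fin d → ℤ), F^[p] (x + zv k) = F^[p] x + zv k :=
    fun x k => iter_comm hc p x k
  obtain ⟨hL1, hLb⟩ := hG p
  set L : ℝ := L₀ ^ p with hL
  have hL0 : 0 < L := by linarith
  obtain ⟨C, hC0, hC⟩ := deriv_bounded' hGs hGc r
  set ε : ℝ := (C + 1)⁻¹ with hε
  have hε0 : 0 < ε := by positivity
  have hε1 : ε ≤ 1 := by
    rw [hε]
    exact inv_le_one_of_one_le₀ (by linarith)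
  have hεC : ε * C ≤ 1 := by
    rw [hε, inv_mul_le_iff₀ (by linarith)]
    linarith
  have hder : ∀ j, 1 ≤ j → j ≤ r → ∀ y, ε ^ j * ‖iteratedFDeriv ℝ j (F^[p]) y‖ ≤ L * ε := by
    intro j hj1 hj2 y
    rcases Nat.lt_or_ge 1 j with h | h
    · have h1 : ε ^ j ≤ ε ^ 2 := pow_le_pow_of_le_one hε0.le hε1 h
      calc ε ^ j * ‖iteratedFDeriv ℝ j (F^[p]) y‖ ≤ ε ^ 2 * C :=
            mul_le_mul h1 (hC j hj1 hj2 y) (norm_nonneg _) (by positivity)
        _ = (ε * C) * ε := by ring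
        _ ≤ 1 * ε := mul_le_mul_of_nonneg_right hεC hε0.le
        _ ≤ L * ε := mul_le_mul_of_nonneg_right hL1 hε0.le
    · obtain rfl : j = 1 := by omega
      rw [norm_iteratedFDeriv_one, pow_one, mul_comm]
      exact mul_le_mul_of_nonneg_right (hLb p le_rfl y) hε0.le
  obtain ⟨δ, hδ, hosc⟩ := he ε hε0
  obtain ⟨hm1, hmr, hmlog⟩ := root_spec hr1 (one_le_mul_of_one_le_of_one_le hfac hL1)
  set m : ℝ := (r.factorial * L) ^ ((r : ℝ)⁻¹) with hm
  have hm0 : 0 < m := by linarith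
  have hδ' : 0 < min δ ε := lt_min hδ hε0
  have hkey := hslow d (F^[p]) hGs hGc ε (min δ ε) L m hδ' (min_le_right _ _) hL0.le hm1 hmr.ge hder
    (by
      intro n x y hxy
      rw [← Function.iterate_mul]
      exact hosc (p * n) x y (hxy.trans (min_le_left _ _)))
  have hmA : m * A ≤ Real.exp (η * p) := by
    have h1 : Real.log (m * A) ≤ η * p := by
      rw [Real.log_mul hm0.ne' hA0.ne', hmlog, Real.log_mul (by positivity) hL0.ne', hL, Real.log_pow]
      have h2 : (p : ℝ) * Real.log L₀ / r ≤ p * (η / 2) := by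
        rw [div_le_iff₀ (by positivity)]
        have hp0 : (0 : ℝ) ≤ p := Nat.cast_nonneg p
        calc (p : ℝ) * Real.log L₀ ≤ p * (η / 2 * r) := mul_le_mul_of_nonneg_left hrL hp0
          _ = p * (η / 2) * r := by ring
      have h3 : (Real.log r.factorial + p * Real.log L₀) / r =
          Real.log r.factorial / r + p * Real.log L₀ / r := add_div _ _ _
      rw [h3]
      linarith
    have h4 : 0 < m * A := by positivity
    rw [← Real.exp_log h4]
    exact Real.exp_le_exp.2 h1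
  set D : ℝ := ε / min δ ε with hD
  have hD1 : 1 ≤ D := by
    rw [hD, le_div_iff₀ hδ', one_mul]
    exact min_le_right _ _
  have hpn : ∀ n x, ‖fderiv ℝ (F^[p * n]) x‖ ≤ D * Real.exp (η * (p * n)) := by
    intro n x
    have h1 := hkey n 1 le_rfl hr1 x
    rw [pow_one, norm_iteratedFDeriv_one, ← Function.iterate_mul] at h1
    have hpos : 0 < (m * A) ^ n := by positivity
    have h2 : ‖fderiv ℝ (F^[p * n]) x‖ ≤ D * (m * A) ^ n := by
      rw [← mul_div_assoc, div_le_iff₀ hpos] at h1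
      rw [hD, div_mul_eq_mul_div, le_div_iff₀ hδ']
      exact h1
    refine h2.trans (mul_le_mul_of_nonneg_left ?_ (by linarith))
    calc (m * A) ^ n ≤ (Real.exp (η * p)) ^ n := pow_le_pow_left₀ (by positivity) hmA n
      _ = Real.exp (η * (p * n)) := by
        rw [← Real.exp_nat_mul]
        congr 1
        ring
  have hall : ∀ N x, ‖fderiv ℝ (F^[N]) x‖ ≤ L * D * Real.exp (η * N) := by
    intro N x
    have e1 : F^[N] = F^[N % p] ∘ F^[p * (N / p)] := by
      rw [← Function.iterate_add, Nat.mod_add_div]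
    have h1 : DifferentiableAt ℝ (F^[N % p]) (F^[p * (N / p)] x) :=
      ((iter_smooth hF _).differentiable (by simp)) _
    have h2 : DifferentiableAt ℝ (F^[p * (N / p)]) x :=
      ((iter_smooth hF _).differentiable (by simp)) _
    rw [e1, fderiv_comp x h1 h2]
    refine (ContinuousLinearMap.opNorm_comp_le _ _).trans ?_
    have h3 : ‖fderiv ℝ (F^[N % p]) (F^[p * (N / p)] x)‖ ≤ L :=
      hLb _ (Nat.mod_lt _ (by omega)).le _
    have h4 := hpn (N / p) x
    have h5 : Real.exp (η * (p * (N / p : ℕ))) ≤ Real.exp (η * N) := by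
      apply Real.exp_le_exp.2
      apply mul_le_mul_of_nonneg_left _ hη.le
      exact_mod_cast Nat.mul_div_le N p
    calc ‖fderiv ℝ (F^[N % p]) (F^[p * (N / p)] x)‖ * ‖fderiv ℝ (F^[p * (N / p)]) x‖
        ≤ L * (D * Real.exp (η * (p * (N / p : ℕ)))) :=
          mul_le_mul h3 h4 (norm_nonneg _) hL0.le
      _ ≤ L * (D * Real.exp (η * N)) := by gcongr
      _ = L * D * Real.exp (η * N) := by ring
  have hLD : 1 ≤ L * D := one_le_mul_of_one_le_of_one_le hL1 hD1
  refine ⟨L * D, hLD, fun n => ⟨?_, fun j hj x => (hall j x).trans ?_⟩⟩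
  · have h1 : 1 ≤ Real.exp (η * n) := Real.one_le_exp (by positivity)
    exact one_le_mul_of_one_le_of_one_le hLD h1
  · apply mul_le_mul_of_nonneg_left _ (by linarith)
    apply Real.exp_le_exp.2
    apply mul_le_mul_of_nonneg_left _ hη.le
    exact_mod_cast hj

end Pool.Agent.Lib.H96R
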