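import Pool.Agent.Lib.H96R.Sharp
import Pool.Agent.Lib.H96R.Subexp

/-!
# H96R (MP_ef0847_an): growth slower than `exp (n ^ κ)` when the iterates are uniformly Hoelder
-/

set_option autoImplicit false

open scoped ContDiff

namespace Pool.Agent.Lib.H96R

open Pool.Agent.Lib.H14U

/-- The iterates of `F` are uniformly Hoelder at small scales. -/
def HEqui {d : ℕ} (F : (Fin d → ℝ) → (Fin d → ℝ)) (K β δ₀ : ℝ) : Prop :=
  ∀ (n : ℕ) (x y : Fin d → ℝ), ‖x - y‖ ≤ δ₀ → ‖F^[n] x - F^[n] y‖ ≤ K * ‖x - y‖ ^ β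

/-- A small constant. -/
theorem small_const {K β δ₀ : ℝ} (hK : 0 ≤ K) (hβ : 0 < β) (hδ : 0 < δ₀) :
    ∃ c : ℝ, 0 < c ∧ c ≤ 1 ∧ c ≤ δ₀ ∧ K * c ^ β ≤ 1 := by
  refine ⟨min (min 1 δ₀) ((1 / (K + 1)) ^ (1 / β)), ?_, ?_, ?_, ?_⟩
  · exact lt_min (lt_min one_pos hδ) (Real.rpow_pos_of_pos (by positivity) _)
  · exact (min_le_left _ _).trans (min_le_left _ _)
  · exact (min_le_left _ _).trans (min_le_right _ _)
  · have h1 : (min (min 1 δ₀) ((1 / (K + 1)) ^ (1 / β))) ^ β ≤ 1 / (K + 1) := by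
      calc (min (min 1 δ₀) ((1 / (K + 1)) ^ (1 / β))) ^ β ≤ ((1 / (K + 1)) ^ (1 / β)) ^ β := by
            apply Real.rpow_le_rpow _ (min_le_right _ _) hβ.le
            exact (lt_min (lt_min one_pos hδ) (Real.rpow_pos_of_pos (by positivity) _)).le
        _ = 1 / (K + 1) := by
          rw [← Real.rpow_mul (by positivity), one_div_mul_cancel hβ.ne', Real.rpow_one]
    calc K * (min (min 1 δ₀) ((1 / (K + 1)) ^ (1 / β))) ^ β ≤ K * (1 / (K + 1)) :=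
          mul_le_mul_of_nonneg_left h1 hK
      _ ≤ 1 := by
        rw [mul_one_div, div_le_one (by linarith)]
        linarith

/-- **The recursion**: the time is multiplied by `r`, the bound of the derivatives is raised to a
power which does not depend on `r`. -/
theorem step {d : ℕ} {F : (Fin d → ℝ) → (Fin d → ℝ)} (hF : ContDiff ℝ ∞ F)
    (hc : ∀ (x : Fin d → ℝ) (k : Fin d → ℤ), F (x + zv k) = F x + zv k) {K β δ₀ : ℝ} (hK : 0 ≤ K)
    (hβ : 0 < β) (hδ₀ : 0 < δ₀) (hH : HEqui F K β δ₀) {b : ℕ} (hb : 1 ≤ b) (hbβ : 1 ≤ β * b)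
    (r : ℕ) (hr : 1 ≤ r) :
    ∃ D : ℝ, 1 ≤ D ∧ ∀ (p : ℕ) (Γ : ℝ), 1 ≤ p → DerBound F p Γ →
      DerBound F (r * p) (D * ((p : ℝ) * Γ) ^ (2 * b)) := by
  obtain ⟨A, hA, hslow⟩ := slow r hr
  obtain ⟨C, hC, hsharp⟩ := sharp hF hc r
  obtain ⟨c, hc0, hc1, hcδ, hcK⟩ := small_const hK hβ hδ₀
  have hA0 : 0 < A := by linarith
  have hC0 : 0 < C := by linarith
  have hfac : (1 : ℝ) ≤ r.factorial := by exact_mod_cast r.factorial_pos
  have hD1 : 1 ≤ c⁻¹ * C ^ (b - 1) * (r.factorial * A ^ r) := by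
    have h1 : 1 ≤ c⁻¹ := (one_le_inv₀ hc0).2 hc1
    have h2 : 1 ≤ C ^ (b - 1) := one_le_pow₀ hC
    have h3 : 1 ≤ A ^ r := one_le_pow₀ hA
    exact one_le_mul_of_one_le_of_one_le (one_le_mul_of_one_le_of_one_le h1 h2)
      (one_le_mul_of_one_le_of_one_le hfac h3)
  refine ⟨c⁻¹ * C ^ (b - 1) * (r.factorial * A ^ r), hD1, fun p Γ hp hΓ => ?_⟩
  have hΓ1 := hΓ.1
  have hΓ0 : 0 < Γ := by linarith
  have hpR : (1 : ℝ) ≤ p := by exact_mod_cast hp
  have hp0 : (0 : ℝ) < p := by linarith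
  have hGs : ContDiff ℝ ∞ (F^[p]) := iter_smooth hF p
  have hGc : ∀ (x : Fin d → ℝ) (k : Fin d → ℤ), F^[p] (x + zv k) = F^[p] x + zv k :=
    fun x k => iter_comm hc p x k
  set E : ℝ := (p : ℝ) * Γ ^ 2 with hE
  have hΓsq : 1 ≤ Γ ^ 2 := one_le_pow₀ hΓ1
  have hE1 : 1 ≤ E := one_le_mul_of_one_le_of_one_le hpR hΓsq
  have hE0 : 0 < E := by linarith
  set ε : ℝ := (C * E)⁻¹ with hε
  have hCE : 1 ≤ C * E := one_le_mul_of_one_le_of_one_le hC hE1
  have hε0 : 0 < ε := by positivity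
  have hε1 : ε ≤ 1 := inv_le_one_of_one_le₀ hCE
  have hεE : ε * E = C⁻¹ := by
    rw [hε]
    field_simp
  have hder : ∀ j, 1 ≤ j → j ≤ r → ∀ y, ε ^ j * ‖iteratedFDeriv ℝ j (F^[p]) y‖ ≤ Γ * ε := by
    intro j hj1 hj2 y
    rcases Nat.lt_or_ge 1 j with h | h
    · obtain ⟨i, rfl⟩ : ∃ i, j = i + 2 := ⟨j - 2, by omega⟩
      have h1 := hsharp p hp Γ hΓ p le_rfl (i + 2) hj1 hj2 y
      have e1 : ((p : ℝ) * Γ)⁻¹ * E = Γ := by
        rw [hE]
        field_simp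
      calc ε ^ (i + 2) * ‖iteratedFDeriv ℝ (i + 2) (F^[p]) y‖
          ≤ ε ^ (i + 2) * (C * ((p : ℝ) * Γ)⁻¹ * E ^ (i + 2)) :=
            mul_le_mul_of_nonneg_left h1 (by positivity)
        _ = (((p : ℝ) * Γ)⁻¹ * E) * ε * (C * (ε * E)) * (ε * E) ^ i := by ring
        _ = Γ * ε * (C * C⁻¹) * (C⁻¹) ^ i := by rw [e1, hεE]
        _ = Γ * ε * (C⁻¹) ^ i := by rw [mul_inv_cancel₀ hC0.ne', mul_one]
        _ ≤ Γ * ε * 1 := by
          apply mul_le_mul_of_nonneg_left _ (by positivity)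
          exact pow_le_one₀ (by positivity) (inv_le_one_of_one_le₀ hC)
        _ = Γ * ε := mul_one _
    · obtain rfl : j = 1 := by omega
      rw [norm_iteratedFDeriv_one, pow_one, mul_comm]
      exact mul_le_mul_of_nonneg_right (hΓ.2 p le_rfl y) hε0.le
  set δ : ℝ := c * ε ^ b with hδ
  have hδ0 : 0 < δ := by positivity
  have hεb : ε ^ b ≤ ε := by
    calc ε ^ b ≤ ε ^ 1 := pow_le_pow_of_le_one hε0.le hε1 hb
      _ = ε := pow_one ε
  have hδε : δ ≤ ε := by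
    calc δ ≤ 1 * ε ^ b := mul_le_mul_of_nonneg_right hc1 (by positivity)
      _ ≤ ε := by rw [one_mul]; exact hεb
  have hδδ₀ : δ ≤ δ₀ := by
    calc δ ≤ c * 1 := mul_le_mul_of_nonneg_left (hεb.trans hε1) hc0.le
      _ ≤ δ₀ := by rw [mul_one]; exact hcδ
  have hδβ : K * δ ^ β ≤ ε := by
    rw [hδ, Real.mul_rpow hc0.le (by positivity), ← mul_assoc]
    have h1 : (ε ^ b) ^ β ≤ ε := by
      rw [← Real.rpow_natCast, ← Real.rpow_mul hε0.le]
      calc ε ^ ((b : ℝ) * β) ≤ ε ^ (1 : ℝ) :=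
            Real.rpow_le_rpow_of_exponent_ge hε0 hε1 (by linarith [mul_comm β (b : ℝ)])
        _ = ε := Real.rpow_one ε
    calc K * c ^ β * (ε ^ b) ^ β ≤ 1 * ε :=
          mul_le_mul hcK h1 (Real.rpow_nonneg (by positivity) _) zero_le_one
      _ = ε := one_mul ε
  have hosc : ∀ n, Osc ((F^[p])^[n]) δ ε := by
    intro n x y hxy
    rw [← Function.iterate_mul]
    refine (hH (p * n) x y (hxy.trans hδδ₀)).trans (le_trans ?_ hδβ)
    exact mul_le_mul_of_nonneg_left (Real.rpow_le_rpow (norm_nonneg _) hxy hβ.le) hK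
  obtain ⟨hm1, hmr, -⟩ := root_spec hr (one_le_mul_of_one_le_of_one_le hfac hΓ1)
  set m : ℝ := (r.factorial * Γ) ^ ((r : ℝ)⁻¹) with hm
  have hm0 : 0 < m := by linarith
  have hmA1 : 1 ≤ m * A := one_le_mul_of_one_le_of_one_le hm1 hA
  have hkey := hslow d (F^[p]) hGs hGc ε δ Γ m hδ0 hδε hΓ0.le hm1 hmr.ge hder hosc
  have hratio : ε / δ = c⁻¹ * (C * E) ^ (b - 1) := by
    have e1 : ε ^ b = ε ^ (b - 1) * ε := by
      rw [← pow_succ]
      congr 1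
      omega
    have e2 : (C * E) ^ (b - 1) = (ε ^ (b - 1))⁻¹ := by rw [← inv_pow, hε, inv_inv]
    have e3 : ∀ t : ℝ, 0 < t → ε / (c * (t * ε)) = c⁻¹ * t⁻¹ := by
      intro t ht
      field_simp
    rw [hδ, e1, e2]
    exact e3 _ (by positivity)
  have hpn : ∀ n, n ≤ r → ∀ x, ‖fderiv ℝ (F^[p * n]) x‖ ≤
      c⁻¹ * (C * E) ^ (b - 1) * (r.factorial * Γ * A ^ r) := by
    intro n hn x
    have h1 := hkey n 1 le_rfl hr x
    rw [pow_one, norm_iteratedFDeriv_one, ← Function.iterate_mul] at h1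
    have hpos : 0 < (m * A) ^ n := by positivity
    have h2 : ‖fderiv ℝ (F^[p * n]) x‖ ≤ ε / δ * (m * A) ^ n := by
      rw [← mul_div_assoc, div_le_iff₀ hpos] at h1
      rw [div_mul_eq_mul_div, le_div_iff₀ hδ0]
      exact h1
    refine h2.trans ?_
    rw [hratio]
    apply mul_le_mul_of_nonneg_left _ (by positivity)
    calc (m * A) ^ n ≤ (m * A) ^ r := pow_le_pow_right₀ hmA1 hn
      _ = r.factorial * Γ * A ^ r := by rw [mul_pow, hmr]
  have hfinal : Γ * (c⁻¹ * (C * E) ^ (b - 1) * (r.factorial * Γ * A ^ r)) ≤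
      c⁻¹ * C ^ (b - 1) * (r.factorial * A ^ r) * ((p : ℝ) * Γ) ^ (2 * b) := by
    have e1 : Γ * (c⁻¹ * (C * E) ^ (b - 1) * (r.factorial * Γ * A ^ r)) =
        c⁻¹ * C ^ (b - 1) * (r.factorial * A ^ r) * ((p : ℝ) ^ (b - 1) * (Γ ^ 2) ^ b) := by
      have e2 : (Γ ^ 2) ^ b = (Γ ^ 2) ^ (b - 1) * Γ ^ 2 := by
        rw [← pow_succ]
        congr 1
        omega
      rw [e2, mul_pow, hE, mul_pow]
      ring
    rw [e1]
    apply mul_le_mul_of_nonneg_left _ (by positivity)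
    calc (p : ℝ) ^ (b - 1) * (Γ ^ 2) ^ b ≤ (p : ℝ) ^ (2 * b) * (Γ ^ 2) ^ b :=
          mul_le_mul_of_nonneg_right (pow_le_pow_right₀ hpR (by omega)) (by positivity)
      _ = ((p : ℝ) * Γ) ^ (2 * b) := by rw [mul_pow, ← pow_mul]
  have hB1 : 1 ≤ c⁻¹ * C ^ (b - 1) * (r.factorial * A ^ r) * ((p : ℝ) * Γ) ^ (2 * b) :=
    one_le_mul_of_one_le_of_one_le hD1
      (one_le_pow₀ (one_le_mul_of_one_le_of_one_le hpR hΓ1))
  refine ⟨hB1, fun j hj x => ?_⟩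
  have e1 : F^[j] = F^[j % p] ∘ F^[p * (j / p)] := by
    rw [← Function.iterate_add, Nat.mod_add_div]
  have h1 : DifferentiableAt ℝ (F^[j % p]) (F^[p * (j / p)] x) :=
    ((iter_smooth hF _).differentiable (by simp)) _
  have h2 : DifferentiableAt ℝ (F^[p * (j / p)]) x :=
    ((iter_smooth hF _).differentiable (by simp)) _
  rw [e1, fderiv_comp x h1 h2]
  refine (ContinuousLinearMap.opNorm_comp_le _ _).trans (le_trans ?_ hfinal)
  have h3 : j / p ≤ r := by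
    apply Nat.div_le_of_le_mul
    rw [mul_comm]
    exact hj
  exact mul_le_mul (hΓ.2 _ (Nat.mod_lt _ (by omega)).le _) (hpn _ h3 x) (norm_nonneg _) hΓ0.le

/-- **Growth slower than `exp (n ^ κ)`.** -/
theorem power {d : ℕ} {F : (Fin d → ℝ) → (Fin d → ℝ)} (hF : ContDiff ℝ ∞ F)
    (hc : ∀ (x : Fin d → ℝ) (k : Fin d → ℤ), F (x + zv k) = F x + zv k) {K β δ₀ : ℝ} (hK : 0 ≤ K)
    (hβ : 0 < β) (hδ₀ : 0 < δ₀) (hH : HEqui F K β δ₀) {κ : ℝ} (hκ : 0 < κ) :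
    ∃ C : ℝ, 0 ≤ C ∧ ∀ n : ℕ, 1 ≤ n → DerBound F n (Real.exp (C * (n : ℝ) ^ κ)) := by
  obtain ⟨b₀, hb₀⟩ := exists_nat_ge (1 / β)
  set b : ℕ := b₀ + 1 with hb
  have hb1 : 1 ≤ b := by omega
  have hbβ : 1 ≤ β * b := by
    rw [div_le_iff₀ hβ] at hb₀
    have h1 : (b : ℝ) = b₀ + 1 := by rw [hb]; push_cast; ring
    rw [h1]
    nlinarith
  set B : ℕ := 2 * b + 1 with hB
  obtain ⟨r₀, hr₀⟩ := exists_nat_ge ((B : ℝ) ^ (1 / κ))
  set r : ℕ := r₀ + 2 with hr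
  have hr1 : 1 ≤ r := by omega
  have hrR : (1 : ℝ) ≤ r := by exact_mod_cast hr1
  have hr0 : (0 : ℝ) < r := by linarith
  have hBr : (B : ℝ) ≤ (r : ℝ) ^ κ := by
    have h1 : ((B : ℝ) ^ (1 / κ)) ^ κ = B := by
      rw [← Real.rpow_mul (by positivity), one_div_mul_cancel hκ.ne', Real.rpow_one]
    rw [← h1]
    apply Real.rpow_le_rpow (by positivity) _ hκ.le
    have h2 : (r : ℝ) = r₀ + 2 := by rw [hr]; push_cast; ring
    rw [h2]
    linarith
  obtain ⟨D, hD, hstep⟩ := step hF hc hK hβ hδ₀ hH hb1 hbβ r hr1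
  obtain ⟨L₀, hL₀, hG⟩ := gamma_exp hF hc
  set D' : ℝ := D * r with hD'
  have hD'1 : 1 ≤ D' := one_le_mul_of_one_le_of_one_le hD hrR
  have hD'0 : 0 < D' := by linarith
  set Z : ℝ := D' * L₀ with hZ
  have hZ1 : 1 ≤ Z := one_le_mul_of_one_le_of_one_le hD'1 hL₀
  have hZ0 : 0 < Z := by linarith
  have key : ∀ i : ℕ, ∃ Γ : ℝ, DerBound F (r ^ i) Γ ∧ D' * ((r : ℝ) ^ i * Γ) ≤ Z ^ (B ^ i) := by
    intro i
    induction i with
    | zero =>
      refine ⟨L₀, ?_, ?_⟩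
      · have := hG 1
        rw [pow_one] at this
        rw [pow_zero]
        exact this
      · rw [pow_zero, pow_zero, pow_one, one_mul]
    | succ i ih =>
      obtain ⟨Γ, hΓ, hi⟩ := ih
      have hΓ1 := hΓ.1
      have hri : (1 : ℝ) ≤ (r : ℝ) ^ i := one_le_pow₀ hrR
      have hpos : 1 ≤ r ^ i := Nat.one_le_pow _ _ (by omega)
      have h1 := hstep (r ^ i) Γ hpos hΓ
      rw [Nat.cast_pow] at h1
      have e1 : r * r ^ i = r ^ (i + 1) := by rw [pow_succ, mul_comm]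
      rw [e1] at h1
      refine ⟨_, h1, ?_⟩
      set y : ℝ := (r : ℝ) ^ i * Γ with hy
      have hy1 : 1 ≤ y := one_le_mul_of_one_le_of_one_le hri hΓ1
      have hy0 : 0 < y := by linarith
      have hriy : (r : ℝ) ^ i ≤ y := by
        rw [hy]
        nlinarith
      calc D' * ((r : ℝ) ^ (i + 1) * (D * y ^ (2 * b)))
          = D' * (D * r) * ((r : ℝ) ^ i * y ^ (2 * b)) := by ring
        _ ≤ D' * D' * (y * y ^ (2 * b)) := by
          rw [← hD']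
          gcongr
        _ = D' ^ 2 * y ^ (2 * b + 1) := by ring
        _ ≤ D' ^ (2 * b + 1) * y ^ (2 * b + 1) := by
          apply mul_le_mul_of_nonneg_right _ (by positivity)
          exact pow_le_pow_right₀ hD'1 (by omega)
        _ = (D' * y) ^ B := (mul_pow D' y B).symm
        _ ≤ (Z ^ (B ^ i)) ^ B := pow_le_pow_left₀ (by positivity) hi B
        _ = Z ^ (B ^ (i + 1)) := by rw [← pow_mul, ← pow_succ]
  refine ⟨Real.log Z * B, by
    have := Real.log_nonneg hZ1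
    positivity, fun n hn => ?_⟩
  obtain ⟨Γ, hΓ, hΓZ⟩ := key (Nat.log r n + 1)
  have hlt : n < r ^ (Nat.log r n + 1) := Nat.lt_pow_succ_log_self (by omega) n
  have hlog : r ^ (Nat.log r n) ≤ n := Nat.pow_log_le_self r (by omega)
  have hΓ1 := hΓ.1
  have hΓle : Γ ≤ Z ^ (B ^ (Nat.log r n + 1)) := by
    refine le_trans ?_ hΓZ
    have h1 : (1 : ℝ) ≤ (r : ℝ) ^ (Nat.log r n + 1) := one_le_pow₀ hrR
    have h2 : 1 ≤ D' * (r : ℝ) ^ (Nat.log r n + 1) := one_le_mul_of_one_le_of_one_le hD'1 h1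
    rw [← mul_assoc]
    exact le_mul_of_one_le_left (by linarith) h2
  have hpow : ((B ^ (Nat.log r n + 1) : ℕ) : ℝ) ≤ B * (n : ℝ) ^ κ := by
    rw [pow_succ, Nat.cast_mul, Nat.cast_pow, mul_comm]
    apply mul_le_mul_of_nonneg_left _ (by positivity)
    calc (B : ℝ) ^ (Nat.log r n) ≤ ((r : ℝ) ^ κ) ^ (Nat.log r n) :=
          pow_le_pow_left₀ (by positivity) hBr _
      _ = ((r : ℝ) ^ (Nat.log r n)) ^ κ := by
        rw [← Real.rpow_natCast, ← Real.rpow_mul hr0.le, mul_comm κ, Real.rpow_mul hr0.le,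
          Real.rpow_natCast]
      _ ≤ (n : ℝ) ^ κ := by
        apply Real.rpow_le_rpow (by positivity) _ hκ.le
        exact_mod_cast hlog
  have hexp : Z ^ (B ^ (Nat.log r n + 1)) ≤ Real.exp (Real.log Z * B * (n : ℝ) ^ κ) := by
    have h1 : Z ^ (B ^ (Nat.log r n + 1)) =
        Real.exp (((B ^ (Nat.log r n + 1) : ℕ) : ℝ) * Real.log Z) := by
      rw [Real.exp_nat_mul, Real.exp_log hZ0]
    rw [h1]
    apply Real.exp_le_exp.2
    have h2 := mul_le_mul_of_nonneg_right hpow (Real.log_nonneg hZ1)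
    calc ((B ^ (Nat.log r n + 1) : ℕ) : ℝ) * Real.log Z ≤ B * (n : ℝ) ^ κ * Real.log Z := h2
      _ = Real.log Z * B * (n : ℝ) ^ κ := by ring
  have hle := hΓle.trans hexp
  exact ⟨hΓ1.trans hle, fun j hj x => (hΓ.2 j (hj.trans hlt.le) x).trans hle⟩

end Pool.Agent.Lib.H96R
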