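import Pool.Agent.Lib.H14U.Main

/-!
# H96R (MP_ef0847_an): derivatives of scaled functions and of compositions
-/

set_option autoImplicit false

open scoped ContDiff

namespace Pool.Agent.Lib.H96R

open Pool.Agent.Lib.H14U

theorem hle (m : ℕ) : ((m : ℕ) : WithTop ℕ∞) ≤ ∞ := by
  exact_mod_cast le_top

/-- Scaling of the variable. -/
theorem scale_dom {V W : Type*} [NormedAddCommGroup V] [NormedSpace ℝ V]
    [NormedAddCommGroup W] [NormedSpace ℝ W] {f : V → W} (hf : ContDiff ℝ ∞ f) {s : ℝ}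
    (hs : 0 ≤ s) (i : ℕ) (x : V) :
    ‖iteratedFDeriv ℝ i (fun z => f (s • z)) x‖ ≤ s ^ i * ‖iteratedFDeriv ℝ i f (s • x)‖ := by
  set g : V →L[ℝ] V := s • ContinuousLinearMap.id ℝ V with hg
  have h1 : (fun z => f (s • z)) = f ∘ g := by
    funext z
    simp [hg]
  have h2 : g x = s • x := by simp [hg]
  have hgn : ‖g‖ ≤ s := by
    rw [hg]
    refine (ContinuousLinearMap.opNorm_smul_le s (ContinuousLinearMap.id ℝ V)).trans ?_
    rw [Real.norm_of_nonneg hs]
    have h3 := ContinuousLinearMap.norm_id_le (𝕜 := ℝ) (E := V)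
    nlinarith
  rw [h1, ContinuousLinearMap.iteratedFDeriv_comp_right g hf x (hle i), h2]
  refine (ContinuousMultilinearMap.norm_compContinuousLinearMap_le _ _).trans ?_
  rw [Finset.prod_const, Finset.card_univ, Fintype.card_fin, mul_comm]
  exact mul_le_mul_of_nonneg_right (pow_le_pow_left₀ (norm_nonneg _) hgn i) (norm_nonneg _)

/-- The derivatives of positive order do not see constants. -/
theorem iter_sub_const {V W : Type*} [NormedAddCommGroup V] [NormedSpace ℝ V]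
    [NormedAddCommGroup W] [NormedSpace ℝ W] (f : V → W) (c : W) (k : ℕ) (hk : 1 ≤ k) (x : V) :
    iteratedFDeriv ℝ k (fun z => f z - c) x = iteratedFDeriv ℝ k f x := by
  obtain ⟨i, rfl⟩ : ∃ i, k = i + 1 := ⟨k - 1, by omega⟩
  have hfd : fderiv ℝ (fun z => f z - c) = fderiv ℝ f := by
    funext x
    exact fderiv_sub_const _
  ext m
  rw [iteratedFDeriv_succ_apply_right, iteratedFDeriv_succ_apply_right, hfd]

/-- The scale-invariant bound for the derivatives of a composition. -/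
theorem comp_scale {V W U : Type*} [NormedAddCommGroup V] [NormedSpace ℝ V]
    [NormedAddCommGroup W] [NormedSpace ℝ W] [NormedAddCommGroup U] [NormedSpace ℝ U]
    {F : V → W} {f : U → V} (hF : ContDiff ℝ ∞ F) (hf : ContDiff ℝ ∞ f) (x : U)
    (k : ℕ) (hk : 1 ≤ k) {ε s L : ℝ} (hε : 0 < ε) (hs : 0 < s) (hL : 0 ≤ L)
    (h1 : ∀ j, 1 ≤ j → j ≤ k → ε ^ j * ‖iteratedFDeriv ℝ j F (f x)‖ ≤ L)
    (h2 : ∀ j, 1 ≤ j → j ≤ k → ‖iteratedFDeriv ℝ j f x‖ * s ^ j ≤ ε) :
    ‖iteratedFDeriv ℝ k (fun y => F (f y)) x‖ * s ^ k ≤ k.factorial * L := by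
  set F₁ : V → W := fun w => F (ε • w) - F (f x) with hF₁
  set f₁ : U → V := fun y => ε⁻¹ • f y with hf₁
  have hF₁s : ContDiff ℝ ∞ F₁ := (hF.comp (contDiff_const.smul contDiff_id)).sub contDiff_const
  have hf₁s : ContDiff ℝ ∞ f₁ := contDiff_const.smul hf
  have hval : ∀ y, ε • f₁ y = f y := by
    intro y
    simp only [hf₁]
    rw [smul_smul, mul_inv_cancel₀ hε.ne', one_smul]
  have hcomp : (fun y => F (f y) - F (f x)) = F₁ ∘ f₁ := by
    funext y
    simp only [hF₁, Function.comp_apply, hval]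
  have e1 : iteratedFDeriv ℝ k (fun y => F (f y)) x = iteratedFDeriv ℝ k (F₁ ∘ f₁) x := by
    rw [← hcomp]
    exact (iter_sub_const _ _ k hk x).symm
  have hC : ∀ i, i ≤ k → ‖iteratedFDeriv ℝ i F₁ (f₁ x)‖ ≤ L := by
    intro i hi
    rcases Nat.eq_zero_or_pos i with h0 | h0
    · subst h0
      rw [norm_iteratedFDeriv_zero]
      simp only [hF₁, hval, sub_self, norm_zero]
      exact hL
    · have e2 : iteratedFDeriv ℝ i F₁ (f₁ x) = iteratedFDeriv ℝ i (fun w => F (ε • w)) (f₁ x) :=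
        iter_sub_const _ _ i h0 _
      rw [e2]
      refine (scale_dom hF hε.le i (f₁ x)).trans ?_
      rw [hval]
      exact h1 i h0 hi
  have hD : ∀ i, 1 ≤ i → i ≤ k → ‖iteratedFDeriv ℝ i f₁ x‖ ≤ (s⁻¹) ^ i := by
    intro i hi1 hi2
    have e3 : iteratedFDeriv ℝ i f₁ x = ε⁻¹ • iteratedFDeriv ℝ i f x :=
      iteratedFDeriv_const_smul_apply (hf.of_le (hle i)).contDiffAt
    rw [e3, norm_smul, Real.norm_of_nonneg (by positivity), inv_pow, inv_mul_le_iff₀ hε,
      ← div_eq_mul_inv, le_div_iff₀ (by positivity)]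
    exact h2 i hi1 hi2
  rw [e1]
  have h3 := norm_iteratedFDeriv_comp_le hF₁s hf₁s (hle k) x hC hD
  calc ‖iteratedFDeriv ℝ k (F₁ ∘ f₁) x‖ * s ^ k ≤ (k.factorial * L * (s⁻¹) ^ k) * s ^ k :=
        mul_le_mul_of_nonneg_right h3 (by positivity)
    _ = k.factorial * L := by
      rw [inv_pow]
      field_simp

end Pool.Agent.Lib.H96R
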