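import Pool.Agent.Lib.H96R.Slow

/-!
# H96R (MP_ef0847_an): scale-invariant growth of the higher derivatives of the iterates
-/

set_option autoImplicit false

open scoped ContDiff

namespace Pool.Agent.Lib.H96R

open Pool.Agent.Lib.H14U

/-- The scale-invariant form of `comp_main`. -/
theorem comp_main2 {V : Type*} [NormedAddCommGroup V] [NormedSpace ℝ V]
    {F g : V → V} (hF : ContDiff ℝ ∞ F) (hg : ContDiff ℝ ∞ g) (x₀ : V) (n : ℕ)
    (B T E C : ℝ) (hB : 1 ≤ B) (hT : 0 < T) (hT1 : T ≤ 1) (hE : 0 < E) (hC : 0 ≤ C)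
    (hgB : ∀ i, 1 ≤ i → i ≤ n + 1 → ‖iteratedFDeriv ℝ i g x₀‖ ≤ B * T * E ^ i ∨ n < i)
    (hFC : ∀ i, 1 ≤ i → i ≤ n + 1 → ∀ y, ‖iteratedFDeriv ℝ i F y‖ ≤ C) :
    ‖iteratedFDeriv ℝ (n + 1) (fun x => F (g x) - (fderiv ℝ F (g x₀)) (g x)) x₀‖
      ≤ 2 ^ n * n.factorial * C * B ^ (n + 1) * T ^ 2 * E ^ (n + 1) := by
  have hgB' : ∀ i, 1 ≤ i → i ≤ n → ‖iteratedFDeriv ℝ i g x₀‖ ≤ B * T * E ^ i := by
    intro i h1 h2
    rcases hgB i h1 (by omega) with h | h
    · exact h
    · omega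
  have hFd : Differentiable ℝ F := hF.differentiable (by simp)
  have hgd : Differentiable ℝ g := hg.differentiable (by simp)
  have hF1 : ContDiff ℝ ∞ (fderiv ℝ F) := hF.fderiv_right (by simp)
  have hg1 : ContDiff ℝ ∞ (fderiv ℝ g) := hg.fderiv_right (by simp)
  set A : V →L[ℝ] V := fderiv ℝ F (g x₀) with hA
  set a : V → (V →L[ℝ] V) := fun x => fderiv ℝ F (g x) - A with ha
  have ha1 : ContDiff ℝ ∞ a := (hF1.comp hg).sub contDiff_const
  have ha0 : a x₀ = 0 := by simp only [ha, hA, sub_self]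
  have hH : fderiv ℝ (fun x => F (g x) - A (g x)) = fun x =>
      ContinuousLinearMap.compL ℝ V V V (a x) (fderiv ℝ g x) := by
    funext x
    have e1 : HasFDerivAt (fun x => F (g x)) ((fderiv ℝ F (g x)).comp (fderiv ℝ g x)) x :=
      (hFd (g x)).hasFDerivAt.comp x (hgd x).hasFDerivAt
    have e2 : HasFDerivAt (fun x => A (g x)) (A.comp (fderiv ℝ g x)) x :=
      A.hasFDerivAt.comp x (hgd x).hasFDerivAt
    have e3 : fderiv ℝ (fun x => F (g x) - A (g x)) x
        = (fderiv ℝ F (g x)).comp (fderiv ℝ g x) - A.comp (fderiv ℝ g x) := (e1.sub e2).fderiv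
    rw [e3]
    simp only [ha, ContinuousLinearMap.compL_apply, ContinuousLinearMap.sub_comp]
  rw [← norm_iteratedFDeriv_fderiv, hH]
  refine (ContinuousLinearMap.norm_iteratedFDeriv_le_of_bilinear_of_le_one
    (ContinuousLinearMap.compL ℝ V V V) ha1 hg1 x₀ (hle n)
    (ContinuousLinearMap.norm_compL_le ℝ V V V)).trans ?_
  have hB0 : 0 < B := by linarith
  have hterm : ∀ i ∈ Finset.range (n + 1),
      (n.choose i : ℝ) * ‖iteratedFDeriv ℝ i a x₀‖ * ‖iteratedFDeriv ℝ (n - i) (fderiv ℝ g) x₀‖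
        ≤ (n.choose i : ℝ) * (n.factorial * C * B ^ (n + 1) * T ^ 2 * E ^ (n + 1)) := by
    intro i hi
    have hin : i ≤ n := by
      have := Finset.mem_range.1 hi
      omega
    have hR : 0 ≤ (n.choose i : ℝ) * (n.factorial * C * B ^ (n + 1) * T ^ 2 * E ^ (n + 1)) := by
      positivity
    rcases Nat.eq_zero_or_pos i with h0 | h0
    · subst h0
      have : ‖iteratedFDeriv ℝ 0 a x₀‖ = 0 := by
        rw [norm_iteratedFDeriv_zero, ha0, norm_zero]
      rw [this, mul_zero, zero_mul]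
      exact hR
    · have e1 : iteratedFDeriv ℝ i a x₀ = iteratedFDeriv ℝ i (fun x => (fderiv ℝ F) (g x)) x₀ :=
        iter_sub_const (fun x => (fderiv ℝ F) (g x)) A i h0 x₀
      have e2 : ‖iteratedFDeriv ℝ i a x₀‖ ≤ n.factorial * (T * B ^ n * C) * E ^ i := by
        have h1 := comp_scale hF1 hg x₀ i h0 (ε := T * B) (s := E⁻¹) (L := T * B ^ n * C)
          (by positivity) (by positivity) (by positivity)
          (fun j hj1 hj2 => by
            rw [norm_iteratedFDeriv_fderiv]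
            have h2 := hFC (j + 1) (by omega) (by omega) (g x₀)
            have h3 : (T * B) ^ j ≤ T * B ^ n := by
              rw [mul_pow]
              have h4 : T ^ j ≤ T := by
                calc T ^ j ≤ T ^ 1 := pow_le_pow_of_le_one hT.le hT1 hj1
                  _ = T := pow_one T
              have h5 : B ^ j ≤ B ^ n := pow_le_pow_right₀ hB (hj2.trans hin)
              exact mul_le_mul h4 h5 (by positivity) hT.le
            exact mul_le_mul h3 h2 (norm_nonneg _) (by positivity))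
          (fun j hj1 hj2 => by
            have h2 := hgB' j hj1 (hj2.trans hin)
            rw [inv_pow, ← div_eq_mul_inv, div_le_iff₀ (by positivity)]
            calc ‖iteratedFDeriv ℝ j g x₀‖ ≤ B * T * E ^ j := h2
              _ = T * B * E ^ j := by ring)
        rw [inv_pow, ← div_eq_mul_inv, div_le_iff₀ (by positivity), ← e1] at h1
        have e4 : (i.factorial : ℝ) ≤ n.factorial := by
          exact_mod_cast Nat.factorial_le hin
        refine h1.trans ?_
        have h6 : 0 ≤ T * B ^ n * C := by positivity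
        have h7 : 0 ≤ E ^ i := by positivity
        exact mul_le_mul_of_nonneg_right (mul_le_mul_of_nonneg_right e4 h6) h7
      have e3 : ‖iteratedFDeriv ℝ (n - i) (fderiv ℝ g) x₀‖ ≤ B * T * E ^ (n - i + 1) := by
        rw [norm_iteratedFDeriv_fderiv]
        exact hgB' _ (by omega) (by omega)
      have e5 : E ^ i * E ^ (n - i + 1) = E ^ (n + 1) := by
        rw [← pow_add]
        congr 1
        omega
      calc (n.choose i : ℝ) * ‖iteratedFDeriv ℝ i a x₀‖
            * ‖iteratedFDeriv ℝ (n - i) (fderiv ℝ g) x₀‖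
          ≤ (n.choose i : ℝ) * (n.factorial * (T * B ^ n * C) * E ^ i) *
            (B * T * E ^ (n - i + 1)) := by gcongr
        _ = (n.choose i : ℝ) * (n.factorial * C * B ^ (n + 1) * T ^ 2 *
            (E ^ i * E ^ (n - i + 1))) := by ring
        _ = (n.choose i : ℝ) * (n.factorial * C * B ^ (n + 1) * T ^ 2 * E ^ (n + 1)) := by rw [e5]
  refine (Finset.sum_le_sum hterm).trans (le_of_eq ?_)
  rw [← Finset.sum_mul]
  have hch : (∑ i ∈ Finset.range (n + 1), (n.choose i : ℝ)) = 2 ^ n := by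
    exact_mod_cast Nat.sum_range_choose n
  rw [hch]
  ring

/-- Growth in one order, given a bound of the remainders. -/
theorem growth_gen {d : ℕ} {F : (Fin d → ℝ) → (Fin d → ℝ)} (hF : ContDiff ℝ ∞ F)
    (n : ℕ) (hn : 1 ≤ n) (q : ℕ) (Γ ρ : ℝ) (hΓ : DerBound F q Γ) (hρ : 0 ≤ ρ)
    (hR : ∀ m, m < q → ∀ x, ‖iteratedFDeriv ℝ (n + 1)
      (fun y => F (F^[m] y) - (fderiv ℝ F (F^[m] x)) (F^[m] y)) x‖ ≤ ρ) :
    ∀ j, j ≤ q → ∀ x, ‖iteratedFDeriv ℝ (n + 1) (F^[j]) x‖ ≤ q * Γ * ρ := by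
  have hΓ0 : 0 ≤ Γ := zero_le_one.trans hΓ.1
  have hsm : ∀ j : ℕ, ContDiff ℝ ∞ (F^[j]) := iter_smooth hF
  have key : ∀ x, ∀ m : ℕ, ∀ l : ℕ, m + l ≤ q →
      ‖(fderiv ℝ (F^[l]) (F^[m] x)).compContinuousMultilinearMap
        (iteratedFDeriv ℝ (n + 1) (F^[m]) x)‖ ≤ m * Γ * ρ := by
    intro x m
    induction m with
    | zero =>
      intro l _
      have h1 : iteratedFDeriv ℝ (n + 1) (F^[0]) x = 0 := by
        rw [Function.iterate_zero]
        have h2 : ‖iteratedFDeriv ℝ (n + 1) (id : (Fin d → ℝ) → (Fin d → ℝ)) x‖ = 0 := by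
          rw [← norm_iteratedFDeriv_fderiv]
          have h3 : fderiv ℝ (id : (Fin d → ℝ) → (Fin d → ℝ)) =
              fun _ => ContinuousLinearMap.id ℝ (Fin d → ℝ) := by
            funext y
            exact fderiv_id
          rw [h3, iteratedFDeriv_const_of_ne (by omega)]
          simp
        exact norm_eq_zero.1 h2
      rw [h1]
      have h4 : (fderiv ℝ (F^[l]) (F^[0] x)).compContinuousMultilinearMap
          (0 : ContinuousMultilinearMap ℝ (fun _ : Fin (n + 1) => Fin d → ℝ) (Fin d → ℝ)) = 0 := by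
        ext v
        simp
      rw [h4]
      simp
    | succ m ih =>
      intro l hl
      have h1 : F^[m + 1] = (fun y => (F (F^[m] y) - (fderiv ℝ F (F^[m] x)) (F^[m] y)) +
          (fderiv ℝ F (F^[m] x) ∘ F^[m]) y) := by
        funext y
        rw [Function.iterate_succ_apply']
        simp
      have hA : ContDiff ℝ ∞ (fderiv ℝ F (F^[m] x) ∘ F^[m]) :=
        (fderiv ℝ F (F^[m] x)).contDiff.comp (hsm m)
      have hR' : ContDiff ℝ ∞ (fun y => F (F^[m] y) - (fderiv ℝ F (F^[m] x)) (F^[m] y)) :=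
        (hF.comp (hsm m)).sub hA
      have h2 : iteratedFDeriv ℝ (n + 1) (F^[m + 1]) x =
          iteratedFDeriv ℝ (n + 1)
            (fun y => F (F^[m] y) - (fderiv ℝ F (F^[m] x)) (F^[m] y)) x +
          (fderiv ℝ F (F^[m] x)).compContinuousMultilinearMap
            (iteratedFDeriv ℝ (n + 1) (F^[m]) x) := by
        have h3 : iteratedFDeriv ℝ (n + 1) (F^[m + 1]) x =
            iteratedFDeriv ℝ (n + 1)
              ((fun y => F (F^[m] y) - (fderiv ℝ F (F^[m] x)) (F^[m] y)) +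
                (fderiv ℝ F (F^[m] x) ∘ F^[m])) x := by
          rw [h1]
          rfl
        rw [h3, iteratedFDeriv_add_apply (hR'.of_le (hle _)).contDiffAt
          (hA.of_le (hle _)).contDiffAt]
        rw [ContinuousLinearMap.iteratedFDeriv_comp_left (fderiv ℝ F (F^[m] x))
          (n := ((n + 1 : ℕ) : WithTop ℕ∞))
          ((hsm m).of_le (hle _)).contDiffAt le_rfl]
      have h4 : (fderiv ℝ (F^[l]) (F^[m + 1] x)).comp (fderiv ℝ F (F^[m] x)) =
          fderiv ℝ (F^[l + 1]) (F^[m] x) := by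
        rw [Function.iterate_succ_apply' F m x, Function.iterate_succ F l]
        exact (fderiv_comp (F^[m] x)
          (((hsm l).differentiable (by simp)).differentiableAt)
          ((hF.differentiable (by simp)).differentiableAt)).symm
      have h5 : (fderiv ℝ (F^[l]) (F^[m + 1] x)).compContinuousMultilinearMap
          (iteratedFDeriv ℝ (n + 1) (F^[m + 1]) x) =
          (fderiv ℝ (F^[l]) (F^[m + 1] x)).compContinuousMultilinearMap
            (iteratedFDeriv ℝ (n + 1)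
              (fun y => F (F^[m] y) - (fderiv ℝ F (F^[m] x)) (F^[m] y)) x) +
          (fderiv ℝ (F^[l + 1]) (F^[m] x)).compContinuousMultilinearMap
            (iteratedFDeriv ℝ (n + 1) (F^[m]) x) := by
        rw [h2, ← h4]
        ext v
        simp
      rw [h5]
      have h6 := hR m (by omega) x
      have h7 := ContinuousLinearMap.norm_compContinuousMultilinearMap_le
        (fderiv ℝ (F^[l]) (F^[m + 1] x))
        (iteratedFDeriv ℝ (n + 1)
              (fun y => F (F^[m] y) - (fderiv ℝ F (F^[m] x)) (F^[m] y)) x)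
      have h8 : ‖fderiv ℝ (F^[l]) (F^[m + 1] x)‖ ≤ Γ := hΓ.2 l (by omega) _
      have h9 := ih (l + 1) (by omega)
      have h10 : ‖fderiv ℝ (F^[l]) (F^[m + 1] x)‖ * ‖iteratedFDeriv ℝ (n + 1)
              (fun y => F (F^[m] y) - (fderiv ℝ F (F^[m] x)) (F^[m] y)) x‖ ≤ Γ * ρ :=
        mul_le_mul h8 h6 (norm_nonneg _) hΓ0
      refine (norm_add_le _ _).trans ?_
      push_cast
      linarith
  intro j hj x
  have h1 := key x j 0 (by omega)
  have h2 : (fderiv ℝ (F^[0]) (F^[j] x)).compContinuousMultilinearMap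
      (iteratedFDeriv ℝ (n + 1) (F^[j]) x) = iteratedFDeriv ℝ (n + 1) (F^[j]) x := by
    rw [Function.iterate_zero, fderiv_id]
    ext v
    simp
  rw [h2] at h1
  refine h1.trans ?_
  refine mul_le_mul_of_nonneg_right (mul_le_mul_of_nonneg_right ?_ hΓ0) hρ
  exact_mod_cast hj

/-- **Scale-invariant growth**: `‖D^i F^j‖ ≤ C (q Γ)⁻¹ (q Γ²)^i` for `1 ≤ i ≤ n`, `j ≤ q`. -/
theorem sharp {d : ℕ} {F : (Fin d → ℝ) → (Fin d → ℝ)} (hF : ContDiff ℝ ∞ F)
    (hc : ∀ (x : Fin d → ℝ) (k : Fin d → ℤ), F (x + zv k) = F x + zv k) (n : ℕ) :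
    ∃ C : ℝ, 1 ≤ C ∧ ∀ q : ℕ, 1 ≤ q → ∀ Γ : ℝ, DerBound F q Γ →
      ∀ j, j ≤ q → ∀ i, 1 ≤ i → i ≤ n → ∀ x,
        ‖iteratedFDeriv ℝ i (F^[j]) x‖ ≤ C * ((q : ℝ) * Γ)⁻¹ * ((q : ℝ) * Γ ^ 2) ^ i := by
  induction n with
  | zero =>
    exact ⟨1, le_rfl, fun q _ Γ _ j _ i h1 h2 => by omega⟩
  | succ n ih =>
    rcases Nat.eq_zero_or_pos n with hn | hn
    · subst hn
      refine ⟨1, le_rfl, fun q hq Γ hΓ j hj i h1 h2 x => ?_⟩
      obtain rfl : i = 1 := by omega
      have h3 := hΓ.2 j hj x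
      have h4 : (1 : ℝ) ≤ q := by exact_mod_cast hq
      have h5 := hΓ.1
      have h6 : (0 : ℝ) < q := by linarith
      have h7 : 0 < Γ := by linarith
      rw [norm_iteratedFDeriv_one, one_mul, pow_one]
      have e : ((q : ℝ) * Γ)⁻¹ * ((q : ℝ) * Γ ^ 2) = Γ := by
        field_simp
      rw [e]
      exact h3
    · obtain ⟨C, hC1, hK⟩ := ih
      obtain ⟨C', hC0', hC'⟩ := deriv_bounded' hF hc (n + 1)
      refine ⟨max C (2 ^ n * n.factorial * C' * C ^ (n + 1)), hC1.trans (le_max_left _ _),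
        fun q hq Γ hΓ j hj i h1 h2 x => ?_⟩
      have h4 : (1 : ℝ) ≤ q := by exact_mod_cast hq
      have h5 := hΓ.1
      have h6 : (0 : ℝ) < q := by linarith
      have h7 : 0 < Γ := by linarith
      have hqΓ : 1 ≤ (q : ℝ) * Γ := by nlinarith
      have hpos : 0 ≤ ((q : ℝ) * Γ)⁻¹ * ((q : ℝ) * Γ ^ 2) ^ i := by positivity
      rcases Nat.lt_or_ge i (n + 1) with h | h
      · refine (hK q hq Γ hΓ j hj i h1 (by omega) x).trans ?_
        rw [mul_assoc, mul_assoc]
        exact mul_le_mul_of_nonneg_right (le_max_left _ _) hpos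
      · obtain rfl : i = n + 1 := by omega
        have hT1 : ((q : ℝ) * Γ)⁻¹ ≤ 1 := inv_le_one_of_one_le₀ hqΓ
        have h8 := growth_gen hF n hn q Γ (2 ^ n * n.factorial * C' * C ^ (n + 1) *
          (((q : ℝ) * Γ)⁻¹) ^ 2 * ((q : ℝ) * Γ ^ 2) ^ (n + 1)) hΓ (by positivity)
          (fun m hm y => comp_main2 hF (iter_smooth hF m) y n C (((q : ℝ) * Γ)⁻¹)
            ((q : ℝ) * Γ ^ 2) C' hC1 (by positivity) hT1 (by positivity) hC0'
            (fun i hi1 hi2 => by
              rcases Nat.lt_or_ge n i with h | h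
              · exact Or.inr h
              · exact Or.inl (hK q hq Γ hΓ m (by omega) i hi1 h y)) hC') j hj x
        refine h8.trans ?_
        have e : (q : ℝ) * Γ * (2 ^ n * n.factorial * C' * C ^ (n + 1) *
          (((q : ℝ) * Γ)⁻¹) ^ 2 * ((q : ℝ) * Γ ^ 2) ^ (n + 1)) =
          (2 ^ n * n.factorial * C' * C ^ (n + 1)) *
            (((q : ℝ) * Γ)⁻¹ * ((q : ℝ) * Γ ^ 2) ^ (n + 1)) := by
          field_simp
        rw [e, mul_assoc (max C (2 ^ n * n.factorial * C' * C ^ (n + 1)))]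
        exact mul_le_mul_of_nonneg_right (le_max_right _ _) hpos

end Pool.Agent.Lib.H96R
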