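import Pool.Agent.Lib.H96R.Interp

/-!
# H96R (MP_ef0847_an): slow growth of the derivatives of an equicontinuous family of iterates
-/

set_option autoImplicit false

open scoped ContDiff

namespace Pool.Agent.Lib.H96R

open Pool.Agent.Lib.H14U

theorem bdd_iter {d : ℕ} {F : (Fin d → ℝ) → (Fin d → ℝ)} (hF : ContDiff ℝ ∞ F)
    (hc : ∀ (x : Fin d → ℝ) (k : Fin d → ℤ), F (x + zv k) = F x + zv k) (n : ℕ) : Bdd (F^[n]) := by
  refine ⟨iter_smooth hF n, fun k hk => ?_⟩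
  obtain ⟨C, _, hC⟩ := deriv_bounded (iter_smooth hF n) (fun x k => iter_comm hc n x k) k hk
  exact ⟨C, hC⟩

theorem id_deriv {d : ℕ} (k : ℕ) (hk : 1 ≤ k) (x : Fin d → ℝ) {δ ε : ℝ} (hδ : 0 < δ)
    (hδε : δ ≤ ε) : ‖iteratedFDeriv ℝ k (id : (Fin d → ℝ) → (Fin d → ℝ)) x‖ * δ ^ k ≤ ε := by
  rcases Nat.lt_or_ge 1 k with h | h
  · obtain ⟨i, rfl⟩ : ∃ i, k = i + 2 := ⟨k - 2, by omega⟩
    have h2 : ‖iteratedFDeriv ℝ (i + 2) (id : (Fin d → ℝ) → (Fin d → ℝ)) x‖ = 0 := by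
      rw [← norm_iteratedFDeriv_fderiv]
      have h3 : fderiv ℝ (id : (Fin d → ℝ) → (Fin d → ℝ)) =
          fun _ => ContinuousLinearMap.id ℝ (Fin d → ℝ) := by
        funext y
        exact fderiv_id
      rw [h3, iteratedFDeriv_const_of_ne (by omega)]
      simp
    rw [h2, zero_mul]
    linarith
  · obtain rfl : k = 1 := by omega
    rw [norm_iteratedFDeriv_one, fderiv_id, pow_one]
    have h3 := ContinuousLinearMap.norm_id_le (𝕜 := ℝ) (E := Fin d → ℝ)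
    nlinarith

/-- **Slow growth.** -/
theorem slow (r : ℕ) (hr : 1 ≤ r) : ∃ A : ℝ, 1 ≤ A ∧
    ∀ (d : ℕ) (F : (Fin d → ℝ) → (Fin d → ℝ)), ContDiff ℝ ∞ F →
    (∀ (x : Fin d → ℝ) (k : Fin d → ℤ), F (x + zv k) = F x + zv k) →
    ∀ ε δ L m : ℝ, 0 < δ → δ ≤ ε → 0 ≤ L → 1 ≤ m → r.factorial * L ≤ m ^ r →
    (∀ j, 1 ≤ j → j ≤ r → ∀ y, ε ^ j * ‖iteratedFDeriv ℝ j F y‖ ≤ L * ε) →
    (∀ n, Osc (F^[n]) δ ε) →
    ∀ n k, 1 ≤ k → k ≤ r → ∀ x, ‖iteratedFDeriv ℝ k (F^[n]) x‖ * (δ / (m * A) ^ n) ^ k ≤ ε := by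
  obtain ⟨A, hA, hint⟩ := interp r hr
  refine ⟨A, hA, fun d F hF hc ε δ L m hδ hδε hL hm hmr hder hosc n => ?_⟩
  have hε : 0 < ε := hδ.trans_le hδε
  have hm0 : 0 < m := by linarith
  have hA0 : 0 < A := by linarith
  have hmA : 1 ≤ m * A := one_le_mul_of_one_le_of_one_le hm hA
  induction n with
  | zero =>
    intro k hk1 _ x
    rw [pow_zero, div_one, Function.iterate_zero]
    exact id_deriv k hk1 x hδ hδε
  | succ n ih =>
    set s : ℝ := δ / (m * A) ^ n with hs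
    have hs0 : 0 < s := by positivity
    have hsδ : s ≤ δ := by
      rw [hs]
      exact div_le_self hδ.le (one_le_pow₀ hmA)
    have hs' : s / m ≤ δ := (div_le_self hs0.le hm).trans hsδ
    have hfun : F^[n + 1] = fun y => F (F^[n] y) := by
      funext y
      exact Function.iterate_succ_apply' F n y
    have htop : ∀ x, ‖iteratedFDeriv ℝ r (F^[n + 1]) x‖ * (s / m) ^ r ≤ ε := by
      intro x
      have h1 := comp_scale hF (iter_smooth hF n) x r hr hε hs0 (L := L * ε) (by positivity)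
        (fun j hj1 hj2 => hder j hj1 hj2 _) (fun j hj1 hj2 => ih j hj1 hj2 x)
      rw [← hfun] at h1
      rw [div_pow, ← mul_div_assoc, div_le_iff₀ (by positivity)]
      refine h1.trans ?_
      calc r.factorial * (L * ε) = (r.factorial * L) * ε := by ring
        _ ≤ m ^ r * ε := mul_le_mul_of_nonneg_right hmr hε.le
        _ = ε * m ^ r := mul_comm _ _
    intro k hk1 hk2 x
    have h2 := hint d (F^[n + 1]) (bdd_iter hF hc (n + 1)) ε (s / m) (by positivity)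
      (fun x y hxy => hosc (n + 1) x y (hxy.trans hs')) htop k hk1 hk2 x
    have e1 : δ / (m * A) ^ (n + 1) = (s / m) / A := by
      rw [hs, pow_succ]
      field_simp
    rw [e1, div_pow (s / m) A k, ← mul_div_assoc, div_le_iff₀ (by positivity)]
    refine h2.trans ?_
    rw [mul_comm]
    apply mul_le_mul_of_nonneg_left _ hε.le
    calc A = A ^ 1 := (pow_one A).symm
      _ ≤ A ^ k := pow_le_pow_right₀ hA hk1

end Pool.Agent.Lib.H96R
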